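import Pool.Agent.U541.QP.Sets

/-!
The graph metric of a Cayley graph.
-/

set_option autoImplicit false

namespace Pool.Agent.U541.QP

open Set

section
variable {G : Type*} [Group G]

/-- the Cayley graph of `G` with respect to `S` -/
def cayley (S : Finset G) : SimpleGraph G := SimpleGraph.fromRel (fun a b : G => a⁻¹ * b ∈ S)

theorem cayley_adj (S : Finset G) (a b : G) :
    (cayley S).Adj a b ↔ a ≠ b ∧ (a⁻¹ * b ∈ S ∨ b⁻¹ * a ∈ S) := by
  simp [cayley, SimpleGraph.fromRel_adj]

theorem cayley_adj_mul (S : Finset G) (g a b : G) :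
    (cayley S).Adj (g * a) (g * b) ↔ (cayley S).Adj a b := by
  rw [cayley_adj, cayley_adj]
  have e1 : (g * a)⁻¹ * (g * b) = a⁻¹ * b := by group
  have e2 : (g * b)⁻¹ * (g * a) = b⁻¹ * a := by group
  rw [e1, e2]
  simp

theorem cayley_connected (S : Finset G) (hS : Subgroup.closure (S : Set G) = ⊤) :
    (cayley S).Connected := by
  have h1 : ∀ g : G, (cayley S).Reachable 1 g := by
    intro g
    have hg : g ∈ Subgroup.closure (S : Set G) := by rw [hS]; exact Subgroup.mem_top g
    have key : ∀ (a s : G), s ∈ S → (cayley S).Reachable a (a * s) := by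
      intro a s hs
      by_cases h : a = a * s
      · rw [← h]
      · refine SimpleGraph.Adj.reachable ?_
        rw [cayley_adj]
        exact ⟨h, Or.inl (by simpa using hs)⟩
    have key2 : ∀ (a s : G), s ∈ S → (cayley S).Reachable a (a * s⁻¹) := by
      intro a s hs
      have := key (a * s⁻¹) s hs
      rw [inv_mul_cancel_right] at this
      exact this.symm
    refine Subgroup.closure_induction_right (p := fun x _ => (cayley S).Reachable 1 x) ?_ ?_ ?_ hg
    · exact SimpleGraph.Reachable.refl _
    · intro x _ y hy hx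
      exact hx.trans (key x y hy)
    · intro x _ y hy hx
      exact hx.trans (key2 x y hy)
  have : Nonempty G := ⟨1⟩
  refine ⟨fun a b => (h1 a).symm.trans (h1 b)⟩

theorem cayley_dist_mul_le (S : Finset G) (hS : Subgroup.closure (S : Set G) = ⊤) (g a b : G) :
    (cayley S).dist (g * a) (g * b) ≤ (cayley S).dist a b := by
  obtain ⟨p, hp⟩ := (cayley_connected S hS).exists_walk_length_eq_dist a b
  rw [← hp]
  let φ : cayley S →g cayley S :=
    { toFun := fun x => g * x
      map_rel' := fun {a b} h => (cayley_adj_mul S g a b).2 h }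
  refine ((cayley S).dist_le (p.map φ)).trans ?_
  rw [SimpleGraph.Walk.length_map]

theorem cayley_dist_mul (S : Finset G) (hS : Subgroup.closure (S : Set G) = ⊤) (g a b : G) :
    (cayley S).dist (g * a) (g * b) = (cayley S).dist a b := by
  refine le_antisymm (cayley_dist_mul_le S hS g a b) ?_
  have h := cayley_dist_mul_le S hS g⁻¹ (g * a) (g * b)
  rwa [inv_mul_cancel_left, inv_mul_cancel_left] at h

theorem cayley_geo (S : Finset G) (hS : Subgroup.closure (S : Set G) = ⊤) (x y : G) (t : ℕ)
    (ht : t ≤ (cayley S).dist x y) : ∃ z, (cayley S).dist x z = t ∧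
      (cayley S).dist z y + t = (cayley S).dist x y := by
  obtain ⟨p, hp⟩ := (cayley_connected S hS).exists_walk_length_eq_dist x y
  have h1 : (cayley S).dist x (p.getVert t) ≤ t := by
    refine ((cayley S).dist_le (p.take t)).trans ?_
    rw [SimpleGraph.Walk.take_length]
    exact min_le_left _ _
  have h2 : (cayley S).dist (p.getVert t) y ≤ (cayley S).dist x y - t := by
    refine ((cayley S).dist_le (p.drop t)).trans ?_
    rw [SimpleGraph.Walk.drop_length, hp]
  have h3 := (cayley_connected S hS).dist_triangle (u := x) (v := p.getVert t) (w := y)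
  exact ⟨p.getVert t, by omega, by omega⟩

theorem cayley_fin (S : Finset G) (hS : Subgroup.closure (S : Set G) = ⊤) (n : ℕ) :
    {x | (cayley S).dist 1 x ≤ n}.Finite := by
  classical
  induction n with
  | zero =>
    refine (Set.finite_singleton (1 : G)).subset ?_
    intro x hx
    have hx' : (cayley S).dist 1 x = 0 := Nat.le_zero.1 hx
    rw [(cayley_connected S hS).dist_eq_zero_iff] at hx'
    exact hx'.symm
  | succ n ih =>
    have hfin : (⋃ y ∈ {x | (cayley S).dist 1 x ≤ n},
        ((fun s => y * s) '' (S : Set G) ∪ (fun s => y * s⁻¹) '' (S : Set G))).Finite :=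
      ih.biUnion fun y _ => (S.finite_toSet.image _).union (S.finite_toSet.image _)
    refine (ih.union hfin).subset ?_
    intro x hx
    have hx' : (cayley S).dist 1 x ≤ n + 1 := hx
    rcases Nat.lt_or_ge n ((cayley S).dist 1 x) with h | h
    · right
      obtain ⟨z, hz1, hz2⟩ := cayley_geo S hS 1 x n h.le
      have h3 : (cayley S).dist z x = 1 := by omega
      rw [SimpleGraph.dist_eq_one_iff_adj, cayley_adj] at h3
      refine mem_iUnion₂.2 ⟨z, hz1.le, ?_⟩
      rcases h3.2 with h4 | h4
      · exact Or.inl ⟨z⁻¹ * x, h4, by simp⟩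
      · exact Or.inr ⟨x⁻¹ * z, h4, by simp⟩
    · exact Or.inl h

theorem cayley_wm (S : Finset G) (hS : Subgroup.closure (S : Set G) = ⊤) :
    WM (cayley S).dist where
  dm :=
    { self := fun x => SimpleGraph.dist_self
      symm := fun x y => SimpleGraph.dist_comm
      tri := fun x y z => (cayley_connected S hS).dist_triangle
      geo := cayley_geo S hS }
  inv := cayley_dist_mul S hS
  fin := cayley_fin S hS

end

end Pool.Agent.U541.QP
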