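import Pool.Agent.U541.QP.QI
import Pool.Agent.U541.QP.Cayley

/-!
The dichotomy for quasi-isometric embeddings in hyperbolic groups.
-/

set_option autoImplicit false

namespace Pool.Agent.U541.QP

open Set Filter Topology

section
variable {G : Type*} [Group G] {d : G → G → ℕ} {M : Type*} [MetricSpace M]

/-- the images of `f` and `h` are at Hausdorff distance at most `R` -/
def Close (d : G → G → ℕ) (R : ℕ) (f h : M → G) : Prop :=
  (∀ u, ∃ v, d (f u) (h v) ≤ R) ∧ ∀ v, ∃ u, d (f u) (h v) ≤ R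

/-- the image of `f` and the subgroup `H` are at Hausdorff distance at most `R` -/
def CloseSub (d : G → G → ℕ) (R : ℕ) (f : M → G) (H : Subgroup G) : Prop :=
  (∀ u, ∃ x ∈ H, d (f u) x ≤ R) ∧ ∀ x ∈ H, ∃ u, d (f u) x ≤ R

omit [MetricSpace M] in
theorem ci_closure (f : M → G) (u0 : M) : CI (closure (range fun g => act g (im f))) := by
  refine ⟨isClosed_closure, ?_, act (f u0)⁻¹ (im f), subset_closure ⟨_, rfl⟩, ?_⟩
  · intro A hA g
    refine map_mem_closure (continuous_act g) hA ?_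
    rintro _ ⟨h, rfl⟩
    exact ⟨g * h, (act_act g h _).symm⟩
  · rw [act_im, im_true]
    exact ⟨u0, by simp⟩

theorem main [ProperSpace M] (hw : WM d) {δ : ℝ} (hyp : Hyp d δ) (hgeo : IsGeodesic M)
    (hline : ∀ u : M, ∃ γ : ℝ → M, Isometry γ ∧ u ∈ range γ)
    {D : ℝ} (hom : ∀ u v : M, ∃ e : M ≃ᵢ M, dist (e u) v ≤ D) (u0 : M)
    {K C : ℝ} (hK : 1 ≤ K) (hC : 0 ≤ C) {f : M → G} (hf : QI d K C f) :
    (∃ (H : Subgroup G) (h : M → G) (R : ℕ), h ∈ Limits f ∧ CloseSub d R h H) ∨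
    ∃ Φ : (ℕ → Bool) → (M → G), (∀ x, Φ x ∈ Limits f) ∧
      ∀ x y, x ≠ y → ∀ (g : G) (R : ℕ), ¬ Close d R (Φ x) fun u => g * Φ y u := by
  obtain ⟨κ, β, hE⟩ := im_ext (M := M) hw hyp hline hK hC
  obtain ⟨R0, hQ⟩ := im_qc (M := M) hw hyp hgeo hK hC (κ + 2 * δ)
  set P := closure (range fun g => act g (im f)) with hP
  have hExt : ∀ A ∈ P, Ext d κ β A := by
    intro A hA
    refine Ext.closure hw ?_ hA
    rintro _ ⟨g, rfl⟩
    change Ext d κ β (act g (im f))
    rw [act_im]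
    exact hE _ (hf.mul hw g)
  have hQc : ∀ A ∈ P, Qc d (κ + 2 * δ) R0 A := by
    intro A hA
    refine Qc.closure hw ?_ hA
    rintro _ ⟨g, rfl⟩
    change Qc d (κ + 2 * δ) R0 (act g (im f))
    rw [act_im]
    exact hQ _ (hf.mul hw g)
  have hci := ci_closure f u0
  rcases dichotomy hw hci with ⟨A, hA, hA1, n, m, h⟩ | ⟨Φ, hΦ1, hΦ2⟩
  · left
    obtain ⟨H, ρ, h1, h2⟩ := subgroup hw hA1 h (R := R0) (fun g k hk =>
      uniform hw hyp (hExt _ (hci.inv A hA g)) (hQc A hA) hk)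
    obtain ⟨l, hl, hl1, hl2⟩ := limit_map hw hK hf hom u0 hA hA1
    refine ⟨H, l, ρ + ⌈K + C⌉₊, hl, fun u => ?_, fun x hx => ?_⟩
    · obtain ⟨x, hx, hd⟩ := h1 (l u) (hl1 u)
      exact ⟨x, hx, by omega⟩
    · obtain ⟨a, ha, hd⟩ := h2 x hx
      obtain ⟨u, hu⟩ := hl2 a ha
      refine ⟨u, ?_⟩
      have t := hw.dm.tri (l u) a x
      rw [hw.dm.symm (l u) a, hw.dm.symm a x] at t
      omega
  · right
    choose l hl hl1 hl2 using fun x => limit_map hw hK hf hom u0 (hΦ1 x).1 (hΦ1 x).2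
    refine ⟨l, hl, fun x y hxy g R hc => ?_⟩
    refine hΦ2 x y hxy g (⌈K + C⌉₊ + R) ⟨fun a ha => ?_, fun a ha => ?_⟩
    · obtain ⟨u, hu⟩ := hl2 x a ha
      obtain ⟨v, hv⟩ := hc.1 u
      refine ⟨g * l y v, ?_, ?_⟩
      · simp only [act, inv_mul_cancel_left]
        exact hl1 y v
      · have t := hw.dm.tri a (l x u) (g * l y v)
        have hv' : d (l x u) (g * l y v) ≤ R := hv
        omega
    · obtain ⟨v, hv⟩ := hl2 y (g⁻¹ * a) ha
      obtain ⟨u, hu⟩ := hc.2 v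
      refine ⟨l x u, hl1 x u, ?_⟩
      have hu' : d (l x u) (g * l y v) ≤ R := hu
      have t := hw.dm.tri a (g * l y v) (l x u)
      have e : d a (g * l y v) = d (g⁻¹ * a) (l y v) := by
        rw [← hw.inv g (g⁻¹ * a), mul_inv_cancel_left]
      rw [hw.dm.symm (g * l y v)] at t
      omega

/-- if the image of `f` is at finite distance from a subgroup then every limit is at finite distance
from a translate of the subgroup -/
theorem single [ProperSpace M] (hw : WM d) {K C : ℝ} (hK : 1 ≤ K) {f : M → G} (hf : QI d K C f)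
    (u0 : M) {H : Subgroup G} {R : ℕ} (hH : CloseSub d R f H) {h : M → G} (hh : h ∈ Limits f) :
    ∃ g : G, (∀ u, ∃ x ∈ H, d (h u) (g * x) ≤ R) ∧
      ∀ x ∈ H, ∃ u, d (h u) (g * x) ≤ ⌈K + C⌉₊ + R := by
  classical
  have hfin := finite_ball hw (h u0) R
  -- some translate of `H` works for all finite sets
  have hex : ∃ b, ∀ P : Finset M, ∃ (g : G) (e : M ≃ᵢ M), (∀ z ∈ P, h z = g * f (e z)) ∧
      b⁻¹ * g ∈ H := by
    by_contra hcon
    push Not at hcon
    choose bad hbad using hcon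
    obtain ⟨g, e, hge⟩ := hh (insert u0 (hfin.toFinset.biUnion bad))
    obtain ⟨x, hx, hd⟩ := hH.1 (e u0)
    have h1 : d (h u0) (g * x) ≤ R := by
      rw [hge u0 (by simp), hw.inv]
      exact hd
    refine hbad (g * x) g e (fun z hz => hge z ?_) ?_
    · refine Finset.mem_insert_of_mem (Finset.mem_biUnion.2 ⟨g * x, ?_, hz⟩)
      rw [Set.Finite.mem_toFinset]
      exact h1
    · have e1 : (g * x)⁻¹ * g = x⁻¹ := by group
      rw [e1]
      exact H.inv_mem hx
  obtain ⟨b, hb⟩ := hex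
  refine ⟨b, fun u => ?_, fun x hx => ?_⟩
  · obtain ⟨g, e, hge, hbg⟩ := hb {u}
    obtain ⟨y, hy, hd⟩ := hH.1 (e u)
    refine ⟨b⁻¹ * g * y, H.mul_mem hbg hy, ?_⟩
    have e1 : b * (b⁻¹ * g * y) = g * y := by group
    rw [e1, hge u (by simp), hw.inv]
    exact hd
  · set ρ : ℝ := K * (R + d (b * x) (h u0)) + K * C with hρ
    obtain ⟨P, hP1, hP2⟩ := Metric.totallyBounded_iff.1
      (isCompact_closedBall u0 ρ).totallyBounded 1 one_pos
    obtain ⟨g, e, hge, hbg⟩ := hb (insert u0 hP1.toFinset)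
    have hx' : g⁻¹ * (b * x) ∈ H := by
      have := H.mul_mem (H.inv_mem hbg) hx
      have e1 : (b⁻¹ * g)⁻¹ * x = g⁻¹ * (b * x) := by group
      rwa [e1] at this
    obtain ⟨v, hv⟩ := hH.2 _ hx'
    have hu0 := hge u0 (by simp)
    have h1 : dist (e.symm v) u0 ≤ ρ := by
      rw [← e.dist_eq, IsometryEquiv.apply_symm_apply]
      refine (hf.lower' hK v (e u0)).trans ?_
      rw [hρ]
      have h2 : (d (f v) (f (e u0)) : ℝ) ≤ R + d (b * x) (h u0) := by
        have h3 := hw.dm.tri (f v) (g⁻¹ * (b * x)) (f (e u0))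
        have h4 : d (g⁻¹ * (b * x)) (f (e u0)) = d (b * x) (h u0) := by
          rw [← hw.inv g, mul_inv_cancel_left, hu0]
        exact_mod_cast h3.trans (by omega)
      have h5 : K * (d (f v) (f (e u0)) : ℝ) ≤ K * (R + d (b * x) (h u0)) :=
        mul_le_mul_of_nonneg_left h2 (by linarith)
      linarith
    obtain ⟨p, hp, hd⟩ := mem_iUnion₂.1 (hP2 (Metric.mem_closedBall.2 h1))
    refine ⟨p, ?_⟩
    rw [Metric.mem_ball] at hd
    have h2 := hge p (by simp [hp])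
    have h3 := hf.upper (e p) v
    have h4 : dist (e p) v = dist (e.symm v) p := by
      rw [← e.dist_eq (e.symm v), IsometryEquiv.apply_symm_apply, dist_comm]
    rw [h4] at h3
    have h5 : K * dist (e.symm v) p ≤ K * 1 := mul_le_mul_of_nonneg_left hd.le (by linarith)
    have h6 : d (f (e p)) (f v) ≤ ⌈K + C⌉₊ := by
      have : (d (f (e p)) (f v) : ℝ) ≤ K + C := by linarith
      exact_mod_cast this.trans (Nat.le_ceil _)
    have h7 : d (h p) (b * x) = d (f (e p)) (g⁻¹ * (b * x)) := by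
      rw [h2, ← hw.inv g (f (e p)), mul_inv_cancel_left]
    rw [h7]
    exact (hw.dm.tri _ (f v) _).trans (add_le_add h6 hv)

/-- if the image of `f` is at finite distance from a subgroup then there is only one class of
limits -/
theorem single' [ProperSpace M] (hw : WM d) {K C : ℝ} (hK : 1 ≤ K) {f : M → G} (hf : QI d K C f)
    (u0 : M) {H : Subgroup G} {R : ℕ} (hH : CloseSub d R f H) {h : M → G} (hh : h ∈ Limits f) :
    ∃ (g : G) (R' : ℕ), Close d R' h fun u => g * f u := by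
  obtain ⟨g, h1, h2⟩ := single hw hK hf u0 hH hh
  refine ⟨g, ⌈K + C⌉₊ + R + R, fun u => ?_, fun v => ?_⟩
  · obtain ⟨x, hx, hd⟩ := h1 u
    obtain ⟨v, hv⟩ := hH.2 x hx
    refine ⟨v, ?_⟩
    change d (h u) (g * f v) ≤ _
    have t := hw.dm.tri (h u) (g * x) (g * f v)
    rw [hw.inv, hw.dm.symm x] at t
    omega
  · obtain ⟨x, hx, hd⟩ := hH.1 v
    obtain ⟨u, hu⟩ := h2 x hx
    refine ⟨u, ?_⟩
    change d (h u) (g * f v) ≤ _
    have t := hw.dm.tri (h u) (g * x) (g * f v)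
    rw [hw.inv, hw.dm.symm x] at t
    omega

end

end Pool.Agent.U541.QP
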