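import Pool.Agent.U541.QP.Main

/-!
Invariant measures on the subsets of a group which give positive mass to a coarse class.
-/

set_option autoImplicit false

namespace Pool.Agent.U541.QP

open Set Filter Topology MeasureTheory

section
variable {G : Type*} [Group G] {d : G → G → ℕ}

theorem countable_of_wm (hw : WM d) : Countable G := by
  have h : (univ : Set G) = ⋃ n : ℕ, {x | d 1 x ≤ n} := by
    ext x
    simp only [mem_univ, mem_iUnion, true_iff]
    exact ⟨d 1 x, le_refl (d 1 x)⟩
  rw [← countable_univ_iff, h]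
  exact countable_iUnion fun n => (hw.fin n).countable

/-- the sets at Hausdorff distance at most `R` from `A` -/
def cls (d : G → G → ℕ) (R : ℕ) (A : G → Bool) : Set (G → Bool) :=
  {B | Near d R B A ∧ Near d R A B}

theorem measurable_cls [Countable G] (hw : WM d) (R : ℕ) (A : G → Bool) :
    MeasurableSet (cls d R A) := by
  have h : IsClosed (cls d R A) :=
    (closed_near hw R (fun B : G → Bool => B) (fun _ => A) continuous_id continuous_const).inter
      (closed_near hw R (fun _ => A) (fun B : G → Bool => B) continuous_const continuous_id)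
  exact h.measurableSet

theorem measurable_act [Countable G] (g : G) : Measurable (act g : (G → Bool) → (G → Bool)) :=
  (continuous_act g).measurable

/-- if the class has positive mass then `A` is coarsely an approximate subgroup -/
theorem atom [Countable G] (hw : WM d) (μ : Measure (G → Bool)) (hμ : ∀ g, μ.map (act g) = μ)
    (hfin : μ {A | A 1 = true} < ⊤) (A : G → Bool) (R : ℕ) (hpos : 0 < μ (cls d R A)) :
    ∃ n m : ℕ, ∀ a, A a = true → ∃ h, (Near d n (act h A) A ∧ Near d n A (act h A)) ∧ d a h ≤ m := by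
  classical
  have hm : ∀ x : G, μ {B | B x = true} = μ {B | B 1 = true} := by
    intro x
    conv_rhs => rw [← hμ x⁻¹]
    rw [Measure.map_apply (measurable_act _)]
    · congr 1
      ext B
      simp [act]
    · exact isClosed_one.measurableSet
  set D : Set (G → Bool) := ⋃ y ∈ {y | d 1 y ≤ R}, {B : G → Bool | B y = true} with hD
  have hDfin : μ D < ⊤ := by
    have hf := hw.fin R
    refine lt_of_le_of_lt ?_ (ENNReal.sum_lt_top (s := hf.toFinset)
      (f := fun y => μ {B : G → Bool | B y = true})|>.2 fun y _ => by rw [hm]; exact hfin)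
    have e : D = ⋃ y ∈ hf.toFinset, {B : G → Bool | B y = true} := by
      rw [hD]
      ext B
      simp
    rw [e]
    exact measure_biUnion_finset_le _ _
  set T : G → Set (G → Bool) := fun a => {B | act a B ∈ cls d R A} with hT
  have hTm : ∀ a, MeasurableSet (T a) := fun a => measurable_act a (measurable_cls hw R A)
  have hTμ : ∀ a, μ (T a) = μ (cls d R A) := by
    intro a
    conv_rhs => rw [← hμ a]
    rw [Measure.map_apply (measurable_act _) (measurable_cls hw R A)]
    rfl
  have hTD : ∀ a, A a = true → T a ⊆ D := by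
    intro a ha B hB
    obtain ⟨y, hy, hd⟩ := hB.2 a ha
    refine mem_iUnion₂.2 ⟨a⁻¹ * y, ?_, hy⟩
    change d 1 (a⁻¹ * y) ≤ R
    rw [← hw.inv a, mul_one, mul_inv_cancel_left]
    exact hd
  have key : ∃ F : Finset G, ∀ a, A a = true → ∃ b ∈ F, (T a ∩ T b).Nonempty := by
    by_contra hcon
    push Not at hcon
    have hn : ∀ n : ℕ, ∃ F : Finset G, F.card = n ∧ (∀ a ∈ F, A a = true) ∧
        (F : Set G).PairwiseDisjoint T := by
      intro n
      induction n with
      | zero => exact ⟨∅, rfl, by simp, by simp⟩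
      | succ n ih =>
        obtain ⟨F, hF1, hF2, hF3⟩ := ih
        obtain ⟨a, ha, hab⟩ := hcon F
        have haF : a ∉ F := by
          intro h
          have h1 := hab a h
          rw [inter_self] at h1
          have h2 := hTμ a
          rw [h1, measure_empty] at h2
          exact hpos.ne h2
        refine ⟨insert a F, by rw [Finset.card_insert_of_notMem haF, hF1], ?_, ?_⟩
        · intro b hb
          rcases Finset.mem_insert.1 hb with rfl | hb
          · exact ha
          · exact hF2 b hb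
        · rw [Finset.coe_insert]
          refine hF3.insert fun b hb _ => ?_
          exact disjoint_iff_inter_eq_empty.2 (hab b hb)
    have hle : ∀ n : ℕ, (n : ENNReal) * μ (cls d R A) ≤ μ D := by
      intro n
      obtain ⟨F, hF1, hF2, hF3⟩ := hn n
      have h1 : μ (⋃ a ∈ F, T a) = ∑ a ∈ F, μ (T a) :=
        measure_biUnion_finset hF3 fun a _ => hTm a
      have h2 : ∑ a ∈ F, μ (T a) = n * μ (cls d R A) := by
        rw [Finset.sum_congr rfl fun a _ => hTμ a, Finset.sum_const, hF1, nsmul_eq_mul]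
      rw [← h2, ← h1]
      exact measure_mono (iUnion₂_subset fun a ha => hTD a (hF2 a ha))
    obtain ⟨n, hn⟩ := ENNReal.exists_nat_mul_gt hpos.ne' hDfin.ne
    exact absurd (hle n) (not_le.2 hn)
  obtain ⟨F, hF⟩ := key
  obtain ⟨m, hm'⟩ := (F.finite_toSet.image fun b => d b 1).bddAbove
  refine ⟨R + R, m, fun a ha => ?_⟩
  obtain ⟨b, hb, B, hBa, hBb⟩ := hF a ha
  have h1 : Near d (R + R) (act a⁻¹ A) (act b⁻¹ A) := by
    have c1 := hBa.2.act hw a⁻¹
    have c2 := hBb.1.act hw b⁻¹
    rw [act_act, inv_mul_cancel, act_one] at c1 c2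
    exact c1.trans hw c2
  have h2 : Near d (R + R) (act b⁻¹ A) (act a⁻¹ A) := by
    have c1 := hBb.2.act hw b⁻¹
    have c2 := hBa.1.act hw a⁻¹
    rw [act_act, inv_mul_cancel, act_one] at c1 c2
    exact c1.trans hw c2
  refine ⟨a * b⁻¹, ⟨?_, ?_⟩, ?_⟩
  · have c := h2.act hw a
    rwa [act_act, act_act, mul_inv_cancel, act_one] at c
  · have c := h1.act hw a
    rwa [act_act, act_act, mul_inv_cancel, act_one] at c
  · have h6 : d a (a * b⁻¹) = d b 1 := by
      rw [← hw.inv (a * b⁻¹) b 1]
      simp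
    rw [h6]
    exact hm' ⟨b, hb, rfl⟩

/-- if the coarse classes are uniform then `A` is at finite distance from a subgroup -/
theorem subgroup' (hw : WM d) {A : G → Bool} {a0 : G} (hA : A a0 = true) {n m : ℕ}
    (h : ∀ a, A a = true → ∃ h, (Near d n (act h A) A ∧ Near d n A (act h A)) ∧ d a h ≤ m)
    {R : ℕ} (hR : ∀ (g : G) (k : ℕ), Near d k (act g A) A → Near d R (act g A) A) :
    ∃ (H : Subgroup G) (ρ : ℕ), (∀ a, A a = true → ∃ h ∈ H, d a h ≤ ρ) ∧
      ∀ h ∈ H, ∃ a, A a = true ∧ d h a ≤ ρ := by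
  let H : Subgroup G :=
    { carrier := {g | ∃ k, Near d k (act g A) A ∧ Near d k A (act g A)}
      mul_mem' := by
        rintro g g' ⟨k, h1, h2⟩ ⟨k', h3, h4⟩
        refine ⟨k + k', ?_, ?_⟩
        · rw [← act_act]
          exact ((h3.act hw g).trans hw h1).mono (by omega)
        · rw [← act_act]
          exact (h2.trans hw (h4.act hw g)).mono (by omega)
      one_mem' := by
        refine ⟨0, ?_, ?_⟩ <;>
        · rw [act_one]
          intro x hx
          exact ⟨x, hx, by rw [hw.dm.self]⟩
      inv_mem' := by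
        rintro g ⟨k, h1, h2⟩
        refine ⟨k, ?_, ?_⟩
        · have := h2.act hw g⁻¹
          rwa [act_act, inv_mul_cancel, act_one] at this
        · have := h1.act hw g⁻¹
          rwa [act_act, inv_mul_cancel, act_one] at this }
  refine ⟨H, max m (d 1 a0 + R), fun a ha => ?_, fun g ⟨k, h1, _⟩ => ?_⟩
  · obtain ⟨g, hg, hd⟩ := h a ha
    exact ⟨g, ⟨n, hg⟩, hd.trans (le_max_left _ _)⟩
  · obtain ⟨y, hy, hd⟩ := hR g k h1 (g * a0) (by simp [act, hA])
    refine ⟨y, hy, le_trans ?_ (le_max_right _ _)⟩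
    have t := hw.dm.tri g (g * a0) y
    have e : d g (g * a0) = d 1 a0 := by
      rw [← hw.inv g 1 a0, mul_one]
    omega

open Classical in
/-- characteristic functions of cosets -/
noncomputable def coset (H : Subgroup G) (q : G ⧸ H) : G → Bool := fun x => decide ((x : G ⧸ H) = q)

theorem act_coset (H : Subgroup G) (g : G) (q : G ⧸ H) : act g (coset H q) = coset H (g • q) := by
  funext x
  have h : (((g⁻¹ * x : G) : G ⧸ H) = q) ↔ ((x : G ⧸ H) = g • q) := by
    change (g⁻¹ • (x : G ⧸ H) = q) ↔ _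
    rw [inv_smul_eq_iff]
  exact decide_eq_decide.2 h

theorem exists_measure [Countable G] (H : Subgroup G) (C : Set (G → Bool))
    (hC : coset H ((1 : G) : G ⧸ H) ∈ C) (hCm : MeasurableSet C) :
    ∃ μ : Measure (G → Bool), (∀ g, μ.map (act g) = μ) ∧ μ {A | A 1 = true} < ⊤ ∧ 0 < μ C := by
  classical
  refine ⟨Measure.sum fun q : G ⧸ H => Measure.dirac (coset H q), fun g => ?_, ?_, ?_⟩
  · ext s hs
    rw [Measure.map_apply (measurable_act g) hs, Measure.sum_apply _ (measurable_act g hs),
      Measure.sum_apply _ hs]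
    conv_rhs => rw [← (MulAction.toPerm g : Equiv.Perm (G ⧸ H)).tsum_eq]
    refine tsum_congr fun q => ?_
    rw [Measure.dirac_apply' _ (measurable_act g hs), Measure.dirac_apply' _ hs]
    simp only [MulAction.toPerm_apply, ← act_coset]
    rfl
  · rw [Measure.sum_apply _ isClosed_one.measurableSet, tsum_eq_single ((1 : G) : G ⧸ H)]
    · rw [Measure.dirac_apply' _ isClosed_one.measurableSet]
      refine lt_of_le_of_lt (b := 1) ?_ ENNReal.one_lt_top
      refine (Set.indicator_le_self' ?_ _).trans ?_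
      · intro _ _
        exact zero_le
      · rfl
    · intro q hq
      rw [Measure.dirac_apply' _ isClosed_one.measurableSet, Set.indicator_of_notMem]
      simp only [mem_setOf_eq, coset, decide_eq_true_eq]
      exact fun h => hq h.symm
  · rw [Measure.sum_apply _ hCm]
    refine lt_of_lt_of_le ?_ (ENNReal.le_tsum ((1 : G) : G ⧸ H))
    rw [Measure.dirac_apply_of_mem hC]
    exact one_pos

variable {M : Type*} [MetricSpace M]

theorem iff_measure [Nonempty M] (hw : WM d) {δ : ℝ} (hyp : Hyp d δ) (hgeo : IsGeodesic M)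
    (hline : ∀ u : M, ∃ γ : ℝ → M, Isometry γ ∧ u ∈ range γ)
    {K C : ℝ} (hK : 1 ≤ K) (hC : 0 ≤ C) {f : M → G} (hf : QI d K C f) :
    (∃ (H : Subgroup G) (R : ℕ), CloseSub d R f H) ↔
    ∃ μ : Measure (G → Bool), (∀ g, μ.map (act g) = μ) ∧ μ {A | A 1 = true} < ⊤ ∧
      0 < μ {A | ∃ R, Near d R A (im f) ∧ Near d R (im f) A} := by
  have : Countable G := countable_of_wm hw
  have hE : {A : G → Bool | ∃ R, Near d R A (im f) ∧ Near d R (im f) A} =
      ⋃ R : ℕ, cls d R (im f) := by
    ext A
    simp [cls]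
  constructor
  · rintro ⟨H, R, h1, h2⟩
    refine exists_measure H _ ⟨R, fun x hx => ?_, fun x hx => ?_⟩ ?_
    · have hxH : x ∈ H := by
        simp only [coset, decide_eq_true_eq] at hx
        have := QuotientGroup.eq.1 hx.symm
        simpa using this
      obtain ⟨u, hu⟩ := h2 x hxH
      exact ⟨f u, (im_true f _).2 ⟨u, rfl⟩, by rw [hw.dm.symm]; exact hu⟩
    · obtain ⟨u, rfl⟩ := (im_true f x).1 hx
      obtain ⟨y, hy, hd⟩ := h1 u
      refine ⟨y, ?_, hd⟩
      simp only [coset, decide_eq_true_eq]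
      exact (QuotientGroup.eq.2 (by simpa using hy)).symm
    · rw [hE]
      exact MeasurableSet.iUnion fun R => measurable_cls hw R _
  · rintro ⟨μ, hμ, hfin, hpos⟩
    have hR : ∃ R : ℕ, 0 < μ (cls d R (im f)) := by
      by_contra hcon
      push Not at hcon
      rw [hE, measure_iUnion_null fun R => le_antisymm (hcon R) zero_le] at hpos
      exact lt_irrefl _ hpos
    obtain ⟨R, hR⟩ := hR
    obtain ⟨n, m, h⟩ := atom hw μ hμ hfin (im f) R hR
    obtain ⟨κ, β, hE⟩ := im_ext (M := M) hw hyp hline hK hC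
    obtain ⟨R0, hQ⟩ := im_qc (M := M) hw hyp hgeo hK hC (κ + 2 * δ)
    obtain ⟨u0⟩ := ‹Nonempty M›
    obtain ⟨H, ρ, h1, h2⟩ := subgroup' hw ((im_true f _).2 ⟨u0, rfl⟩) h (R := R0) (fun g k hk =>
      uniform hw hyp (show Ext d κ β (act g (im f)) by
        rw [act_im]
        exact hE _ (hf.mul hw g)) (hQ f hf) hk)
    refine ⟨H, ρ, fun u => h1 _ ((im_true f _).2 ⟨u, rfl⟩), fun x hx => ?_⟩
    obtain ⟨a, ha, hd⟩ := h2 x hx
    obtain ⟨u, rfl⟩ := (im_true f a).1 ha
    exact ⟨u, by rw [hw.dm.symm]; exact hd⟩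

end

end Pool.Agent.U541.QP
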