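import Mathlib

/-!
Quasi-geodesic chains in discrete hyperbolic spaces: the Morse lemma.
-/

set_option autoImplicit false

namespace Pool.Agent.U541.QP

open Set

section
variable {X : Type*}

/-- graph metrics -/
structure DM (d : X → X → ℕ) : Prop where
  self : ∀ x, d x x = 0
  symm : ∀ x y, d x y = d y x
  tri : ∀ x y z, d x z ≤ d x y + d y z
  geo : ∀ x y t, t ≤ d x y → ∃ z, d x z = t ∧ d z y + t = d x y

/-- four point condition -/
def Hyp (d : X → X → ℕ) (δ : ℝ) : Prop :=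
  ∀ x y z w, (d x y : ℝ) + d z w ≤ max ((d x z : ℝ) + d y w) ((d x w : ℝ) + d y z) + 2 * δ

/-- Gromov product -/
noncomputable def gp (d : X → X → ℕ) (z x y : X) : ℝ := ((d z x : ℝ) + d z y - d x y) / 2

variable {d : X → X → ℕ}

theorem DM.rtri (hd : DM d) (x y z : X) : (d x z : ℝ) ≤ d x y + d y z := by
  exact_mod_cast hd.tri x y z

theorem Hyp.nonneg (hd : DM d) {δ : ℝ} (h : Hyp d δ) [Nonempty X] : 0 ≤ δ := by
  have z := Classical.arbitrary X
  have h1 := h z z z z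
  rw [hd.self z, max_self] at h1
  push_cast at h1
  linarith

theorem hyp_gp (hd : DM d) {δ : ℝ} (hyp : Hyp d δ) (x y w z : X) :
    min (gp d z x y) (gp d z y w) ≤ gp d z x w + δ := by
  have h := hyp x w y z
  unfold gp
  rw [hd.symm w z, hd.symm x z, hd.symm w y, hd.symm y z] at h
  rw [min_le_iff]
  rcases le_total ((d x y : ℝ) + d z w) ((d z x : ℝ) + d y w) with h5 | h5
  · rw [max_eq_right h5] at h
    right
    linarith
  · rw [max_eq_left h5] at h
    left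
    linarith

theorem chain_aux (hd : DM d) {δ : ℝ} (hδ : 0 ≤ δ) (hyp : Hyp d δ) (z : X) (m : ℕ) :
    ∀ (k : ℕ) (q : ℕ → X), 0 < k → k ≤ 2 ^ m →
      ∃ i < k, gp d z (q i) (q (i + 1)) ≤ gp d z (q 0) (q k) + δ * m := by
  induction m with
  | zero =>
    intro k q hk hk2
    have h1 : k = 1 := by
      rw [pow_zero] at hk2
      omega
    subst h1
    refine ⟨0, by norm_num, ?_⟩
    simp
  | succ m ih =>
    intro k q hk hk2
    by_cases h1 : k = 1
    · subst h1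
      refine ⟨0, by norm_num, ?_⟩
      have : 0 ≤ δ * ((m + 1 : ℕ) : ℝ) := by positivity
      simp only [zero_add]
      linarith
    · have h2 : 0 < k / 2 := by omega
      have h3 : k / 2 ≤ 2 ^ m := by
        rw [pow_succ] at hk2
        omega
      have h4 : 0 < k - k / 2 := by omega
      have h5 : k - k / 2 ≤ 2 ^ m := by
        rw [pow_succ] at hk2
        omega
      have h6 := hyp_gp hd hyp (q 0) (q (k / 2)) (q k) z
      rcases min_le_iff.1 h6 with h7 | h7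
      · obtain ⟨i, hi, hi2⟩ := ih (k / 2) q h2 h3
        refine ⟨i, by omega, ?_⟩
        push_cast
        linarith
      · obtain ⟨i, hi, hi2⟩ := ih (k - k / 2) (fun i => q (k / 2 + i)) h4 h5
        refine ⟨k / 2 + i, by omega, ?_⟩
        have h8 : k / 2 + (k - k / 2) = k := by omega
        simp only [add_zero, h8] at hi2
        rw [add_assoc]
        push_cast
        linarith

/-- a chain with steps at most `s` passes close to every point `z`, in terms of the Gromov product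
of its ends at `z` -/
theorem chain_near (hd : DM d) {δ : ℝ} (hδ : 0 ≤ δ) (hyp : Hyp d δ) (s : ℝ)
    (k : ℕ) (q : ℕ → X) (hk : 0 < k) (hq : ∀ i < k, (d (q i) (q (i + 1)) : ℝ) ≤ s) (z : X) :
    ∃ i ≤ k, (d z (q i) : ℝ) ≤ gp d z (q 0) (q k) + δ * (Nat.log 2 k + 1) + s := by
  obtain ⟨i, hi, hi2⟩ := chain_aux hd hδ hyp z (Nat.log 2 k + 1) k q hk
    (Nat.lt_pow_succ_log_self (by norm_num) k).le
  refine ⟨i, hi.le, ?_⟩
  have h1 := hq i hi
  have h2 := hd.rtri z (q (i + 1)) (q i)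
  have h3 : (d (q (i + 1)) (q i) : ℝ) = d (q i) (q (i + 1)) := by rw [hd.symm]
  have h4 : gp d z (q i) (q (i + 1)) = (d z (q i) + d z (q (i + 1)) - d (q i) (q (i + 1))) / 2 := rfl
  have h5 : (0 : ℝ) ≤ d (q i) (q (i + 1)) := Nat.cast_nonneg _
  push_cast at hi2
  linarith

/-- quasi-geodesic chains -/
def QG (d : X → X → ℕ) (L : ℝ) (k : ℕ) (q : ℕ → X) : Prop :=
  ∀ i j, i ≤ j → j ≤ k → (d (q i) (q j) : ℝ) ≤ L * (j - i) ∧ ((j : ℝ) - i) ≤ L * d (q i) (q j) + L

theorem log_bound (δ L : ℝ) : ∃ t0 : ℕ, ∀ t : ℕ,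
    (2 : ℝ) ^ t ≤ L * (6 * (δ * (t + 3) + L) + 1) → t ≤ t0 := by
  have l1 := tendsto_pow_const_div_const_pow_of_one_lt 1 (one_lt_two (α := ℝ))
  have l0 := tendsto_pow_const_div_const_pow_of_one_lt 0 (one_lt_two (α := ℝ))
  have l2 := (l1.const_mul (6 * L * δ)).add (l0.const_mul (L * (6 * (δ * 3 + L) + 1)))
  rw [mul_zero, mul_zero, add_zero] at l2
  obtain ⟨T, hT⟩ := Filter.eventually_atTop.1 (l2.eventually_lt_const (zero_lt_one (α := ℝ)))
  refine ⟨T, fun t ht => ?_⟩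
  by_contra hcon
  have h1 := hT t (by omega)
  have h2 : (0 : ℝ) < 2 ^ t := by positivity
  rw [pow_one, pow_zero, ← mul_div_assoc, ← mul_div_assoc, ← add_div, div_lt_one h2] at h1
  nlinarith

theorem morse_end (hd : DM d) (k : ℕ) (q : ℕ → X) (z0 x : X) (i0 : ℕ) (hi0 : i0 ≤ k)
    (hx : q i0 = x) (R : ℕ) (h1 : ∀ i ≤ k, R ≤ d z0 (q i))
    (h2 : ∀ z, d x z + d z z0 = d x z0 → ∃ i ≤ k, d z (q i) ≤ R) :
    ∃ y1, ∃ a ≤ k, d x y1 + d y1 z0 = d x z0 ∧ d y1 z0 ≤ 2 * R ∧ d y1 (q a) ≤ R ∧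
      (R : ℝ) ≤ gp d z0 y1 (q a) := by
  rcases le_or_gt (d x z0) (2 * R) with hcase | hcase
  · refine ⟨x, i0, hi0, ?_, hcase, ?_, ?_⟩
    · rw [hd.self, zero_add]
    · rw [hx, hd.self]
      omega
    · have h3 := h1 i0 hi0
      rw [hx] at h3 ⊢
      unfold gp
      rw [hd.self]
      have : (R : ℝ) ≤ d z0 x := by exact_mod_cast h3
      push_cast
      linarith
  · have hs := hd.symm z0 x
    obtain ⟨y1, hy1, hy1'⟩ := hd.geo z0 x (2 * R) (by omega)
    have s1 := hd.symm z0 y1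
    have s2 := hd.symm y1 x
    have e1 : d x y1 + d y1 z0 = d x z0 := by omega
    obtain ⟨a, ha, hda⟩ := h2 y1 e1
    refine ⟨y1, a, ha, e1, by omega, hda, ?_⟩
    have h3 := h1 a ha
    unfold gp
    have c1 : (R : ℝ) ≤ d z0 (q a) := by exact_mod_cast h3
    have c2 : (d y1 (q a) : ℝ) ≤ R := by exact_mod_cast hda
    have c3 : (d z0 y1 : ℝ) = 2 * R := by exact_mod_cast hy1
    linarith

theorem morse_max (hd : DM d) (k : ℕ) (q : ℕ → X) (x y : X) (hq0 : q 0 = x) :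
    ∃ z0, d x z0 + d z0 y = d x y ∧ ∃ R : ℕ, (∀ i ≤ k, R ≤ d z0 (q i)) ∧
      ∀ z, d x z + d z y = d x y → ∃ i ≤ k, d z (q i) ≤ R := by
  classical
  have hne : (Finset.range (k + 1)).Nonempty := ⟨0, by simp⟩
  obtain ⟨D, hD⟩ : ∃ D : X → ℕ, D = fun z => (Finset.range (k + 1)).inf' hne
    (fun i => d z (q i)) := ⟨_, rfl⟩
  have hDle : ∀ z, ∀ i ≤ k, D z ≤ d z (q i) := by
    intro z i hi
    rw [hD]
    exact Finset.inf'_le _ (Finset.mem_range.2 (by omega))
  have hDex : ∀ z, ∃ i ≤ k, D z = d z (q i) := by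
    intro z
    obtain ⟨i, hi, he⟩ := Finset.exists_mem_eq_inf' hne (fun i => d z (q i))
    refine ⟨i, by have := Finset.mem_range.1 hi; omega, ?_⟩
    rw [hD]
    exact he
  have hb : ∀ z, d x z + d z y = d x y → D z ≤ d x y := by
    intro z hz
    have h1 := hDle z 0 (Nat.zero_le k)
    rw [hq0, hd.symm z x] at h1
    omega
  have hfin : (D '' {z | d x z + d z y = d x y}).Finite :=
    (Set.finite_Iic (d x y)).subset (by rintro _ ⟨z, hz, rfl⟩; exact hb z hz)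
  have hSne : (D '' {z | d x z + d z y = d x y}).Nonempty :=
    ⟨D x, x, by change d x x + d x y = d x y; rw [hd.self, zero_add], rfl⟩
  obtain ⟨m, ⟨z0, hz0, rfl⟩, hmax⟩ := hfin.exists_maximal hSne
  refine ⟨z0, hz0, D z0, hDle z0, fun z hz => ?_⟩
  obtain ⟨i, hi, he⟩ := hDex z
  refine ⟨i, hi, ?_⟩
  rw [← he]
  by_contra hcon
  have := hmax ⟨z, hz, rfl⟩ (by omega : D z0 ≤ D z)
  omega

theorem morse_core (hd : DM d) {δ : ℝ} (hδ : 0 ≤ δ) (hyp : Hyp d δ) {L : ℝ} (hL : 1 ≤ L)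
    (k : ℕ) (q : ℕ → X) (hq : QG d L k q) (z0 : X)
    (hz0 : d (q 0) z0 + d z0 (q k) = d (q 0) (q k)) (R : ℕ)
    (h1 : ∀ i ≤ k, R ≤ d z0 (q i))
    (h2 : ∀ z, d (q 0) z + d z (q k) = d (q 0) (q k) → ∃ i ≤ k, d z (q i) ≤ R) :
    ∃ t : ℕ, (R : ℝ) ≤ δ * (t + 3) + L ∧ (2 : ℝ) ^ t ≤ L * (6 * R + 1) := by
  obtain ⟨y1, a, ha, ea, la, da, ga⟩ := morse_end hd k q z0 (q 0) 0 (Nat.zero_le k) rfl R h1
    (by
      intro z hz
      refine h2 z ?_
      have t1 := hd.tri z z0 (q k)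
      have t2 := hd.tri (q 0) z (q k)
      omega)
  obtain ⟨y2, b, hb, eb, lb, db, gb⟩ := morse_end hd k q z0 (q k) k le_rfl rfl R h1
    (by
      intro z hz
      refine h2 z ?_
      have t1 := hd.tri (q 0) z0 z
      have t2 := hd.tri (q 0) z (q k)
      have s1 := hd.symm z0 z
      have s2 := hd.symm z0 (q k)
      have s3 := hd.symm (q k) z
      omega)
  have sy1 := hd.symm y1 z0
  have sy2 := hd.symm y2 z0
  have hg : gp d z0 y1 y2 ≤ 0 := by
    unfold gp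
    have t1 := hd.tri (q 0) y1 (q k)
    have t2 := hd.tri y1 y2 (q k)
    have s1 := hd.symm z0 (q k)
    have s2 := hd.symm (q k) y2
    have : d z0 y1 + d z0 y2 ≤ d y1 y2 := by omega
    have : (d z0 y1 : ℝ) + d z0 y2 ≤ d y1 y2 := by exact_mod_cast this
    linarith
  have hdab : d (q a) (q b) ≤ 6 * R := by
    have t1 := hd.tri (q a) y1 (q b)
    have t2 := hd.tri y1 z0 (q b)
    have t3 := hd.tri z0 y2 (q b)
    have s1 := hd.symm (q a) y1
    omega
  have hdab' : (d (q a) (q b) : ℝ) ≤ 6 * R := by exact_mod_cast hdab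
  have hdba' : (d (q b) (q a) : ℝ) ≤ 6 * R := by rw [hd.symm]; exact hdab'
  have sgp : ∀ u v, gp d z0 u v = gp d z0 v u := by
    intro u v
    unfold gp
    rw [hd.symm u v]
    ring
  have step : ∀ i < k, (d (q i) (q (i + 1)) : ℝ) ≤ L := by
    intro i hi
    have := (hq i (i + 1) (by omega) (by omega)).1
    push_cast at this
    linarith
  have hsub : ∀ a b : ℕ, a < b → b ≤ k → (d (q a) (q b) : ℝ) ≤ 6 * R →
      ∃ t : ℕ, (R : ℝ) ≤ gp d z0 (q a) (q b) + δ * (t + 1) + L ∧ (2 : ℝ) ^ t ≤ L * (6 * R + 1) := by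
    intro a b hab hb hdab
    obtain ⟨i, hi, hi2⟩ := chain_near hd hδ hyp L (b - a) (fun i => q (a + i)) (by omega)
      (fun i hi => by
        have := step (a + i) (by omega)
        rw [add_assoc] at this
        exact this) z0
    have e : a + (b - a) = b := by omega
    simp only [add_zero, e] at hi2
    refine ⟨Nat.log 2 (b - a), ?_, ?_⟩
    · have : (R : ℝ) ≤ d z0 (q (a + i)) := by exact_mod_cast h1 (a + i) (by omega)
      linarith
    · have h3 : 2 ^ Nat.log 2 (b - a) ≤ b - a := Nat.pow_log_le_self 2 (by omega)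
      have h4 : (2 : ℝ) ^ Nat.log 2 (b - a) ≤ ((b - a : ℕ) : ℝ) := by exact_mod_cast h3
      have h5 := (hq a b hab.le hb).2
      rw [Nat.cast_sub hab.le] at h4
      have h6 : L * d (q a) (q b) ≤ L * (6 * R) := mul_le_mul_of_nonneg_left hdab (by linarith)
      linarith
  have key : ∃ t : ℕ, (R : ℝ) ≤ gp d z0 (q a) (q b) + δ * (t + 1) + L ∧
      (2 : ℝ) ^ t ≤ L * (6 * R + 1) := by
    rcases lt_trichotomy a b with hab | hab | hab
    · exact hsub a b hab hb hdab'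
    · subst hab
      refine ⟨0, ?_, ?_⟩
      · have : gp d z0 (q a) (q a) = d z0 (q a) := by
          unfold gp
          rw [hd.self]
          push_cast
          ring
        rw [this]
        have : (R : ℝ) ≤ d z0 (q a) := by exact_mod_cast h1 a ha
        push_cast
        linarith
      · rw [pow_zero]
        have : (0 : ℝ) ≤ R := Nat.cast_nonneg R
        nlinarith
    · obtain ⟨t, ht1, ht2⟩ := hsub b a hab ha hdba'
      refine ⟨t, ?_, ht2⟩
      rw [sgp]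
      exact ht1
  obtain ⟨t, ht1, ht2⟩ := key
  refine ⟨t, ?_, ht2⟩
  have g1 := hyp_gp hd hyp y1 (q a) y2 z0
  have g2 := hyp_gp hd hyp (q a) (q b) y2 z0
  have gb' : (R : ℝ) ≤ gp d z0 (q b) y2 := by rw [sgp]; exact gb
  have ht0 : (0 : ℝ) ≤ δ * t := mul_nonneg hδ (Nat.cast_nonneg t)
  have e1 : δ * ((t : ℝ) + 3) = δ * t + 3 * δ := by ring
  have e2 : δ * ((t : ℝ) + 1) = δ * t + δ := by ring
  rcases min_le_iff.1 g1 with h3 | h3
  · linarith
  · rcases min_le_iff.1 g2 with h4 | h4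
    · linarith
    · linarith

/-- points almost between the ends of a quasi-geodesic chain are close to the chain -/
theorem morseA (hd : DM d) {δ : ℝ} (hδ : 0 ≤ δ) (hyp : Hyp d δ) {L : ℝ} (hL : 1 ≤ L) (κ : ℝ) :
    ∃ R : ℕ, ∀ (k : ℕ) (q : ℕ → X), QG d L k q → ∀ z, gp d z (q 0) (q k) ≤ κ →
      ∃ i ≤ k, d z (q i) ≤ R := by
  obtain ⟨t0, ht0⟩ := log_bound δ L
  refine ⟨⌈δ * ((t0 : ℝ) + 3) + L + κ + 1 + 2 * δ⌉₊, fun k q hq z hz => ?_⟩
  obtain ⟨z0, hz0, R, hR1, hR2⟩ := morse_max hd k q (q 0) (q k) rfl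
  obtain ⟨t, ht1, ht2⟩ := morse_core hd hδ hyp hL k q hq z0 hz0 R hR1 hR2
  have ht : t ≤ t0 := by
    refine ht0 t (ht2.trans ?_)
    refine mul_le_mul_of_nonneg_left ?_ (by linarith)
    linarith
  have hRb : (R : ℝ) ≤ δ * ((t0 : ℝ) + 3) + L := by
    have h3 : (t : ℝ) ≤ t0 := by exact_mod_cast ht
    have h4 : δ * ((t : ℝ) + 3) ≤ δ * ((t0 : ℝ) + 3) :=
      mul_le_mul_of_nonneg_left (by linarith) hδ
    linarith
  -- a point between the ends close to z
  have b1 := hd.tri (q 0) z (q k)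
  have b2 := hd.tri z (q 0) (q k)
  have b3 := hd.symm z (q 0)
  have b4 := hd.tri (q 0) (q k) z
  have b5 := hd.symm z (q k)
  obtain ⟨z', hz1, hz2⟩ := hd.geo (q 0) (q k) ((d (q 0) z + d (q 0) (q k) - d z (q k)) / 2) (by omega)
  obtain ⟨i, hi, hi2⟩ := hR2 z' (by omega)
  refine ⟨i, hi, ?_⟩
  have h4 := hyp z' z (q 0) (q k)
  rw [hd.symm z' (q 0), hd.symm z (q 0)] at h4
  have hz' : gp d z (q 0) (q k) = ((d z (q 0) : ℝ) + d z (q k) - d (q 0) (q k)) / 2 := rfl
  have hk1 : (d z' z : ℝ) ≤ κ + 1 + 2 * δ := by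
    have c1 : 2 * d (q 0) z' ≤ d (q 0) z + d (q 0) (q k) - d z (q k) := by omega
    have c2 : d (q 0) z + d (q 0) (q k) ≤ 2 * d (q 0) z' + 1 + d z (q k) := by omega
    have c1' : 2 * (d (q 0) z' : ℝ) + d z (q k) ≤ d (q 0) z + d (q 0) (q k) := by
      have : 2 * d (q 0) z' + d z (q k) ≤ d (q 0) z + d (q 0) (q k) := by omega
      exact_mod_cast this
    have c2' : (d (q 0) z : ℝ) + d (q 0) (q k) ≤ 2 * d (q 0) z' + 1 + d z (q k) := by
      exact_mod_cast c2
    have c3 : (d z' (q k) : ℝ) + d (q 0) z' = d (q 0) (q k) := by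
      have : d z' (q k) + d (q 0) z' = d (q 0) (q k) := by omega
      exact_mod_cast this
    have c4 : (d z (q 0) : ℝ) = d (q 0) z := by rw [hd.symm]
    have c5 : (0:ℝ) ≤ d (q 0) (q k) := Nat.cast_nonneg _
    rcases le_total ((d (q 0) z' : ℝ) + d z (q k)) ((d z' (q k) : ℝ) + d (q 0) z) with h5 | h5
    · rw [max_eq_right h5] at h4
      linarith
    · rw [max_eq_left h5] at h4
      linarith
  have h6 := hd.rtri z z' (q i)
  have h7 : (d z z' : ℝ) = d z' z := by rw [hd.symm]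
  have h8 : (d z' (q i) : ℝ) ≤ R := by exact_mod_cast hi2
  have h9 : (d z (q i) : ℝ) ≤ δ * ((t0 : ℝ) + 3) + L + κ + 1 + 2 * δ := by linarith
  exact_mod_cast h9.trans (Nat.le_ceil _)

theorem between_close (hd : DM d) {δ : ℝ} (hyp : Hyp d δ) (x y z z' : X)
    (h : d x z + d z y = d x y) (h' : d x z' + d z' y = d x y) (h1 : d x z' = d x z + 1) :
    (d z z' : ℝ) ≤ 1 + 2 * δ := by
  have h4 := hyp z z' x y
  rw [hd.symm z x, hd.symm z' x] at h4
  have c1 : (d x z : ℝ) + d z y = d x y := by exact_mod_cast h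
  have c2 : (d x z' : ℝ) + d z' y = d x y := by exact_mod_cast h'
  have c3 : (d x z' : ℝ) = d x z + 1 := by exact_mod_cast h1
  rcases le_total ((d x z : ℝ) + d z' y) ((d z y : ℝ) + d x z') with h5 | h5
  · rw [max_eq_right h5] at h4
    linarith
  · rw [max_eq_left h5] at h4
    linarith

/-- the points of a quasi-geodesic chain are almost between its ends -/
theorem morseB (hd : DM d) {δ : ℝ} (hδ : 0 ≤ δ) (hyp : Hyp d δ) {L : ℝ} (hL : 1 ≤ L) :
    ∃ R : ℝ, ∀ (k : ℕ) (q : ℕ → X), QG d L k q → ∀ i ≤ k, gp d (q i) (q 0) (q k) ≤ R := by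
  obtain ⟨R, hR⟩ := morseA hd hδ hyp hL 0
  refine ⟨L * (L * (2 * R + 1 + 2 * δ) + L) + R, fun k q hq i hi => ?_⟩
  set D := d (q 0) (q k) with hD
  have hz : ∀ t : ℕ, ∃ z, t ≤ D → (d (q 0) z = t ∧ d (q 0) z + d z (q k) = D) := by
    intro t
    by_cases ht : t ≤ D
    · obtain ⟨z, h1, h2⟩ := hd.geo (q 0) (q k) t ht
      exact ⟨z, fun _ => ⟨h1, by omega⟩⟩
    · exact ⟨q 0, fun h => absurd h ht⟩
  choose z hz using hz
  have hι : ∀ t : ℕ, ∃ j, t ≤ D → (j ≤ k ∧ d (z t) (q j) ≤ R ∧ (t = 0 → j = 0)) := by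
    intro t
    by_cases ht : t ≤ D
    · rcases Nat.eq_zero_or_pos t with h0 | h0
      · refine ⟨0, fun _ => ⟨Nat.zero_le _, ?_, fun _ => rfl⟩⟩
        have h1 := (hz t ht).1
        rw [hd.symm, h1, h0]
        exact Nat.zero_le _
      · obtain ⟨j, hj, hj2⟩ := hR k q hq (z t) (by
          unfold gp
          have h1 := (hz t ht).2
          have h2 : (d (q 0) (z t) : ℝ) + d (z t) (q k) = d (q 0) (q k) := by exact_mod_cast h1
          have h3 : (d (z t) (q 0) : ℝ) = d (q 0) (z t) := by rw [hd.symm]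
          linarith)
        exact ⟨j, fun _ => ⟨hj, hj2, fun h => absurd h (by omega)⟩⟩
    · exact ⟨0, fun h => absurd h ht⟩
  choose ι hι using hι
  -- the last t with ι t ≤ i
  have hex : ∃ t ≤ D, ι t ≤ i ∧ (t < D → i < ι (t + 1)) := by
    by_contra hcon
    push Not at hcon
    have hall : ∀ t ≤ D, ι t ≤ i := by
      intro t
      induction t with
      | zero =>
        intro _
        rw [(hι 0 (Nat.zero_le _)).2.2 rfl]
        exact Nat.zero_le _
      | succ t ih =>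
        intro ht
        obtain ⟨h1, h2⟩ := hcon t (by omega) (ih (by omega))
        omega
    obtain ⟨h1, h2⟩ := hcon D le_rfl (hall D le_rfl)
    omega
  obtain ⟨t, htD, hti, htn⟩ := hex
  obtain ⟨hz1, hz2⟩ := hz t htD
  obtain ⟨hj1, hj2, -⟩ := hι t htD
  have hR0 : (0 : ℝ) ≤ R := Nat.cast_nonneg R
  have hj2' : (d (z t) (q (ι t)) : ℝ) ≤ R := by exact_mod_cast hj2
  have hJ : (i : ℝ) - ι t ≤ L * (2 * R + 1 + 2 * δ) + L := by
    rcases Nat.lt_or_ge t D with hlt | hge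
    · have h1 := htn hlt
      obtain ⟨hz1', hz2'⟩ := hz (t + 1) (by omega)
      obtain ⟨hj1', hj2'', -⟩ := hι (t + 1) (by omega)
      have h2 := between_close hd hyp (q 0) (q k) (z t) (z (t + 1)) hz2 hz2' (by omega)
      have h3 := (hq (ι t) (ι (t + 1)) (by omega) hj1').2
      have h4 := hd.rtri (q (ι t)) (z t) (q (ι (t + 1)))
      have h5 := hd.rtri (z t) (z (t + 1)) (q (ι (t + 1)))
      have h6 : (d (q (ι t)) (z t) : ℝ) = d (z t) (q (ι t)) := by rw [hd.symm]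
      have h7 : (d (z (t + 1)) (q (ι (t + 1))) : ℝ) ≤ R := by exact_mod_cast hj2''
      have h8 : (d (q (ι t)) (q (ι (t + 1))) : ℝ) ≤ 2 * R + 1 + 2 * δ := by linarith
      have h9 : L * (d (q (ι t)) (q (ι (t + 1))) : ℝ) ≤ L * (2 * R + 1 + 2 * δ) :=
        mul_le_mul_of_nonneg_left h8 (by linarith)
      have h10 : (i : ℝ) ≤ ι (t + 1) := by exact_mod_cast h1.le
      linarith
    · have htD' : t = D := by omega
      have h1 : d (z t) (q k) = 0 := by omega
      have h3 := (hq (ι t) k hj1 le_rfl).2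
      have h4 := hd.rtri (q (ι t)) (z t) (q k)
      have h6 : (d (q (ι t)) (z t) : ℝ) = d (z t) (q (ι t)) := by rw [hd.symm]
      rw [h1] at h4
      push_cast at h4
      have h8 : (d (q (ι t)) (q k) : ℝ) ≤ 2 * R + 1 + 2 * δ := by linarith
      have h9 : L * (d (q (ι t)) (q k) : ℝ) ≤ L * (2 * R + 1 + 2 * δ) :=
        mul_le_mul_of_nonneg_left h8 (by linarith)
      have h10 : (i : ℝ) ≤ k := by exact_mod_cast hi
      linarith
  have h1 := (hq (ι t) i hti hi).1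
  have h2 : L * ((i : ℝ) - ι t) ≤ L * (L * (2 * R + 1 + 2 * δ) + L) :=
    mul_le_mul_of_nonneg_left hJ (by linarith)
  have h3 := hd.rtri (q i) (z t) (q 0)
  have h4 := hd.rtri (q i) (z t) (q k)
  have h5 := hd.rtri (q i) (q (ι t)) (z t)
  have h6 : (d (q i) (q (ι t)) : ℝ) = d (q (ι t)) (q i) := by rw [hd.symm]
  have h7 : (d (q (ι t)) (z t) : ℝ) = d (z t) (q (ι t)) := by rw [hd.symm]
  have h8 : (d (z t) (q 0) : ℝ) = d (q 0) (z t) := by rw [hd.symm]
  have h9 : (d (q 0) (z t) : ℝ) + d (z t) (q k) = d (q 0) (q k) := by exact_mod_cast hz2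
  unfold gp
  linarith

end

end Pool.Agent.U541.QP
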