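import Pool.Agent.U541.QP.Sets

/-!
Quasi-isometric embeddings of geodesic spaces in hyperbolic groups, their images and their limits.
-/

set_option autoImplicit false

namespace Pool.Agent.U541.QP

open Set Filter Topology

section
variable {G : Type*} [Group G] {d : G → G → ℕ}

omit [Group G] in
theorem agree {S : Set (G → Bool)} {A : G → Bool} (hA : A ∈ closure S) {P : Set G}
    (hP : P.Finite) : ∃ B ∈ S, ∀ x ∈ P, B x = A x := by
  have hU : IsOpen {B : G → Bool | ∀ x ∈ P, B x = A x} := by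
    have e : {B : G → Bool | ∀ x ∈ P, B x = A x} =
        ⋂ x ∈ P, (fun B : G → Bool => B x) ⁻¹' {A x} := by
      ext B
      simp
    rw [e]
    exact hP.isOpen_biInter fun x _ =>
      (isOpen_discrete ({A x} : Set Bool)).preimage (continuous_apply x)
  obtain ⟨B, hB, hBS⟩ := mem_closure_iff.1 hA _ hU (fun x _ => rfl)
  exact ⟨B, hBS, hB⟩

/-- every point of `A` is almost between two far points of `A` -/
def Ext (d : G → G → ℕ) (κ : ℝ) (β : ℕ → ℕ) (A : G → Bool) : Prop :=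
  ∀ a, A a = true → ∀ T : ℕ, ∃ p q, A p = true ∧ A q = true ∧ (T ≤ d a p ∧ d a p ≤ β T) ∧
    (T ≤ d a q ∧ d a q ≤ β T) ∧ gp d a p q ≤ κ

/-- points almost between two points of `A` are close to `A` -/
def Qc (d : G → G → ℕ) (κ : ℝ) (R : ℕ) (A : G → Bool) : Prop :=
  ∀ p q, A p = true → A q = true → ∀ x, gp d x p q ≤ κ → ∃ b, A b = true ∧ d x b ≤ R

theorem Ext.closure (hw : WM d) {κ : ℝ} {β : ℕ → ℕ} {S : Set (G → Bool)}
    (hS : ∀ B ∈ S, Ext d κ β B) {A : G → Bool} (hA : A ∈ closure S) : Ext d κ β A := by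
  intro a ha T
  obtain ⟨B, hB, hAB⟩ := agree hA ((finite_ball hw a (β T)).union (finite_singleton a))
  obtain ⟨p, q, hp, hq, hp2, hq2, hpq⟩ := hS B hB a (by
    rw [hAB a (Or.inr rfl)]
    exact ha) T
  refine ⟨p, q, ?_, ?_, hp2, hq2, hpq⟩
  · rw [← hAB p (Or.inl hp2.2)]
    exact hp
  · rw [← hAB q (Or.inl hq2.2)]
    exact hq

theorem Qc.closure (hw : WM d) {κ : ℝ} {R : ℕ} {S : Set (G → Bool)}
    (hS : ∀ B ∈ S, Qc d κ R B) {A : G → Bool} (hA : A ∈ closure S) : Qc d κ R A := by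
  intro p q hp hq x hx
  obtain ⟨B, hB, hAB⟩ := agree hA ((finite_ball hw x R).union (({p, q} : Set G).toFinite))
  obtain ⟨b, hb, hb2⟩ := hS B hB p q (by
    rw [hAB p (Or.inr (by simp))]
    exact hp) (by
    rw [hAB q (Or.inr (by simp))]
    exact hq) x hx
  exact ⟨b, by rw [← hAB b (Or.inl hb2)]; exact hb, hb2⟩

/-- coarse inclusions are uniform -/
theorem uniform (hw : WM d) {δ : ℝ} (hyp : Hyp d δ) {κ : ℝ} {β : ℕ → ℕ} {R : ℕ}
    {A B : G → Bool} (hA : Ext d κ β A) (hB : Qc d (κ + 2 * δ) R B) {n : ℕ} (h : Near d n A B) :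
    Near d R A B := by
  intro a ha
  obtain ⟨T, hT⟩ := exists_nat_gt (κ + 2 * δ + n + 0)
  have : Nonempty G := ⟨1⟩
  have hδ := hyp.nonneg hw.dm
  obtain ⟨p, q, hp, hq, ⟨hp2, -⟩, ⟨hq2, -⟩, hpq⟩ := hA a ha T
  obtain ⟨p', hp', hpp⟩ := h p hp
  obtain ⟨q', hq', hqq⟩ := h q hq
  refine hB p' q' hp' hq' a ?_
  have c1 : (T : ℝ) ≤ d a p := by exact_mod_cast hp2
  have c2 : (T : ℝ) ≤ d a q := by exact_mod_cast hq2
  have c3 : (d p p' : ℝ) ≤ n := by exact_mod_cast hpp
  have c4 : (d q q' : ℝ) ≤ n := by exact_mod_cast hqq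
  have c5 := hw.dm.rtri a p' p
  have c6 := hw.dm.rtri a q' q
  have c7 : (d p' p : ℝ) = d p p' := by rw [hw.dm.symm]
  have c8 : (d q' q : ℝ) = d q q' := by rw [hw.dm.symm]
  have g1 := hyp_gp hw.dm hyp p p' q a
  have g2 := hyp_gp hw.dm hyp p' q' q a
  have e1 : gp d a p p' = ((d a p : ℝ) + d a p' - d p p') / 2 := rfl
  have e2 : gp d a q' q = ((d a q' : ℝ) + d a q - d q' q) / 2 := rfl
  rcases min_le_iff.1 g1 with h3 | h3
  · linarith
  · rcases min_le_iff.1 g2 with h4 | h4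
    · linarith
    · linarith

variable {M : Type*} [MetricSpace M]

/-- quasi-isometric embeddings -/
structure QI (d : G → G → ℕ) (K C : ℝ) (f : M → G) : Prop where
  lower : ∀ u v, dist u v / K - C ≤ d (f u) (f v)
  upper : ∀ u v, (d (f u) (f v) : ℝ) ≤ K * dist u v + C

omit [Group G] in
theorem QI.lower' {K C : ℝ} (hK : 1 ≤ K) {f : M → G} (hf : QI d K C f) (u v : M) :
    dist u v ≤ K * d (f u) (f v) + K * C := by
  have h := hf.lower u v
  have h1 : dist u v / K ≤ d (f u) (f v) + C := by linarith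
  rw [div_le_iff₀ (by linarith)] at h1
  linarith

open Classical in
/-- the characteristic function of the image of `f` -/
noncomputable def im (f : M → G) : G → Bool := fun x => decide (x ∈ range f)

omit [Group G] [MetricSpace M] in
theorem im_true (f : M → G) (x : G) : im f x = true ↔ ∃ u, f u = x := by
  simp [im]

omit [MetricSpace M] in
theorem act_im (g : G) (f : M → G) : act g (im f) = im fun u => g * f u := by
  funext x
  rw [Bool.eq_iff_iff, im_true, act, im_true]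
  constructor
  · rintro ⟨u, hu⟩
    exact ⟨u, by rw [hu, mul_inv_cancel_left]⟩
  · rintro ⟨u, hu⟩
    exact ⟨u, by rw [← hu, inv_mul_cancel_left]⟩

theorem QI.mul (hw : WM d) {K C : ℝ} {f : M → G} (hf : QI d K C f) (g : G) :
    QI d K C fun u => g * f u := by
  refine ⟨fun u v => ?_, fun u v => ?_⟩
  · rw [hw.inv]
    exact hf.lower u v
  · rw [hw.inv]
    exact hf.upper u v

omit [Group G] in
theorem qg_of (hd : DM d) {K C : ℝ} (hK : 1 ≤ K) (hC : 0 ≤ C) {f : M → G} (hf : QI d K C f) (k : ℕ)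
    (w : ℕ → M) (h1 : ∀ i j, i ≤ j → j ≤ k → dist (w i) (w j) ≤ (j : ℝ) - i)
    (h2 : ∀ i j, i ≤ j → j ≤ k → (j : ℝ) - i ≤ dist (w i) (w j) + 1) :
    QG d (K + C + K * C + 1) k fun i => f (w i) := by
  intro i j hij hj
  have hKC : 0 ≤ K * C := by positivity
  constructor
  · rcases hij.eq_or_lt with rfl | hlt
    · rw [hd.self]
      push_cast
      simp
    · have h3 := hf.upper (w i) (w j)
      have h4 := h1 i j hij hj
      have h5 : (1 : ℝ) ≤ (j : ℝ) - i := by
        have : (i : ℝ) + 1 ≤ j := by exact_mod_cast hlt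
        linarith
      have h6 : K * dist (w i) (w j) ≤ K * ((j : ℝ) - i) :=
        mul_le_mul_of_nonneg_left h4 (by linarith)
      nlinarith
  · have h3 := hf.lower' hK (w i) (w j)
    have h4 := h2 i j hij hj
    have h5 : (0 : ℝ) ≤ d (f (w i)) (f (w j)) := Nat.cast_nonneg _
    have h6 : K * (d (f (w i)) (f (w j)) : ℝ) ≤ (K + C + K * C + 1) * d (f (w i)) (f (w j)) :=
      mul_le_mul_of_nonneg_right (by linarith) h5
    linarith

/-- geodesic spaces -/
def IsGeodesic (M : Type*) [MetricSpace M] : Prop :=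
  ∀ u v : M, ∃ γ : ℝ → M, γ 0 = u ∧ γ (dist u v) = v ∧
    ∀ s ∈ Icc 0 (dist u v), ∀ t ∈ Icc 0 (dist u v), dist (γ s) (γ t) = |s - t|

theorem im_ext (hw : WM d) {δ : ℝ} (hyp : Hyp d δ) (hline : ∀ u : M, ∃ γ : ℝ → M,
      Isometry γ ∧ u ∈ range γ) {K C : ℝ} (hK : 1 ≤ K) (hC : 0 ≤ C) :
    ∃ (κ : ℝ) (β : ℕ → ℕ), ∀ f : M → G, QI d K C f → Ext d κ β (im f) := by
  have : Nonempty G := ⟨1⟩
  have hδ := hyp.nonneg hw.dm
  have hKC : 0 ≤ K * C := by positivity
  obtain ⟨κ, hκ⟩ := morseB hw.dm hδ hyp (L := K + C + K * C + 1) (by linarith)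
  refine ⟨κ, fun T => ⌈K * (⌈K * (T + C)⌉₊ : ℝ) + C⌉₊, fun f hf a ha T => ?_⟩
  obtain ⟨u, rfl⟩ := (im_true f a).1 ha
  obtain ⟨γ0, hγ0, s0, rfl⟩ := hline u
  set N : ℕ := ⌈K * (T + C)⌉₊ with hN
  have hN1 : K * (T + C) ≤ N := Nat.le_ceil _
  have hN2 : (T : ℝ) ≤ N / K - C := by
    rw [le_sub_iff_add_le, le_div_iff₀ (by linarith)]
    linarith
  have hdist : ∀ i j : ℕ, dist (γ0 (s0 + (i - N))) (γ0 (s0 + (j - N))) = |(i : ℝ) - j| := by
    intro i j
    rw [hγ0.dist_eq, Real.dist_eq]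
    congr 1
    ring
  have hqg := qg_of hw.dm hK hC hf (2 * N) (fun i => γ0 (s0 + (i - N)))
    (fun i j hij _ => by
      rw [hdist, abs_sub_comm, abs_of_nonneg]
      have : (i : ℝ) ≤ j := by exact_mod_cast hij
      linarith)
    (fun i j hij _ => by
      rw [hdist, abs_sub_comm, abs_of_nonneg]
      · linarith
      · have : (i : ℝ) ≤ j := by exact_mod_cast hij
        linarith)
  have hgp := hκ (2 * N) _ hqg N (by omega)
  have e0 : γ0 (s0 + ((N : ℝ) - N)) = γ0 s0 := by simp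
  simp only [e0] at hgp
  have d1 : dist (γ0 s0) (γ0 (s0 + (((0 : ℕ) : ℝ) - N))) = N := by
    rw [hγ0.dist_eq, Real.dist_eq]
    simp
  have d2 : dist (γ0 s0) (γ0 (s0 + (((2 * N : ℕ) : ℝ) - N))) = N := by
    rw [hγ0.dist_eq, Real.dist_eq]
    push_cast
    rw [abs_sub_comm, abs_of_nonneg]
    · ring
    · have : (0 : ℝ) ≤ N := Nat.cast_nonneg N
      linarith
  have bd : ∀ v : M, dist (γ0 s0) v = N → T ≤ d (f (γ0 s0)) (f v) ∧
      d (f (γ0 s0)) (f v) ≤ ⌈K * (N : ℝ) + C⌉₊ := by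
    intro v hv
    have h1 := hf.lower (γ0 s0) v
    have h2 := hf.upper (γ0 s0) v
    rw [hv] at h1 h2
    refine ⟨by exact_mod_cast hN2.trans h1, by exact_mod_cast h2.trans (Nat.le_ceil _)⟩
  exact ⟨_, _, (im_true f _).2 ⟨_, rfl⟩, (im_true f _).2 ⟨_, rfl⟩, bd _ d1, bd _ d2, hgp⟩

theorem im_qc (hw : WM d) {δ : ℝ} (hyp : Hyp d δ) (hgeo : IsGeodesic M)
    {K C : ℝ} (hK : 1 ≤ K) (hC : 0 ≤ C) (κ : ℝ) :
    ∃ R : ℕ, ∀ f : M → G, QI d K C f → Qc d κ R (im f) := by
  have : Nonempty G := ⟨1⟩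
  have hδ := hyp.nonneg hw.dm
  have hKC : 0 ≤ K * C := by positivity
  obtain ⟨R, hR⟩ := morseA hw.dm hδ hyp (L := K + C + K * C + 1) (by linarith) κ
  refine ⟨R, fun f hf p q hp hq x hx => ?_⟩
  obtain ⟨u, rfl⟩ := (im_true f p).1 hp
  obtain ⟨v, rfl⟩ := (im_true f q).1 hq
  obtain ⟨γ, hγ0, hγ1, hγ⟩ := hgeo u v
  set D := dist u v with hD
  have hD0 : 0 ≤ D := dist_nonneg
  set k : ℕ := ⌈D⌉₊ with hk
  have hk1 : D ≤ k := Nat.le_ceil _
  have hk2 : (k : ℝ) < D + 1 := Nat.ceil_lt_add_one hD0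
  have hmem : ∀ i : ℕ, min (i : ℝ) D ∈ Icc 0 D := fun i =>
    ⟨le_min (Nat.cast_nonneg i) hD0, min_le_right _ _⟩
  have hqg := qg_of hw.dm hK hC hf k (fun i => γ (min (i : ℝ) D))
    (fun i j hij _ => by
      rw [hγ _ (hmem i) _ (hmem j), abs_sub_comm]
      have : (i : ℝ) ≤ j := by exact_mod_cast hij
      rw [abs_of_nonneg (by
        have := min_le_min_right D this
        linarith)]
      rcases le_total (i : ℝ) D with h | h
      · rw [min_eq_left h]
        have := min_le_left (j : ℝ) D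
        linarith
      · rw [min_eq_right h, min_eq_right (h.trans this)]
        linarith)
    (fun i j hij hj => by
      rw [hγ _ (hmem i) _ (hmem j), abs_sub_comm]
      have h1 : (i : ℝ) ≤ j := by exact_mod_cast hij
      have h2 : (j : ℝ) ≤ k := by exact_mod_cast hj
      have h3 := le_abs_self (min (j : ℝ) D - min (i : ℝ) D)
      have h4 := min_le_left (i : ℝ) D
      have h5 : (j : ℝ) - 1 ≤ min (j : ℝ) D := le_min (by linarith) (by linarith)
      linarith)
  have e0 : γ (min ((0 : ℕ) : ℝ) D) = u := by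
    rw [Nat.cast_zero, min_eq_left hD0, hγ0]
  have e1 : γ (min (k : ℝ) D) = v := by
    rw [min_eq_right hk1, hγ1]
  obtain ⟨i, hi, hi2⟩ := hR k _ hqg x (by
    simp only [e0, e1]
    exact hx)
  exact ⟨_, (im_true f _).2 ⟨_, rfl⟩, hi2⟩

/-- the limits of the translates of `f` -/
def Limits (f : M → G) : Set (M → G) :=
  {h | ∀ P : Finset M, ∃ (g : G) (e : M ≃ᵢ M), ∀ z ∈ P, h z = g * f (e z)}

theorem QI.limit (hw : WM d) {K C : ℝ} {f h : M → G} (hf : QI d K C f) (hh : h ∈ Limits f) :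
    QI d K C h := by
  classical
  refine ⟨fun u v => ?_, fun u v => ?_⟩
  · obtain ⟨g, e, hge⟩ := hh {u, v}
    rw [hge u (by simp), hge v (by simp), hw.inv, ← e.dist_eq u v]
    exact hf.lower _ _
  · obtain ⟨g, e, hge⟩ := hh {u, v}
    rw [hge u (by simp), hge v (by simp), hw.inv, ← e.dist_eq u v]
    exact hf.upper _ _

theorem limit_map [ProperSpace M] (hw : WM d) {K C : ℝ} (hK : 1 ≤ K) {f : M → G}
    (hf : QI d K C f) {D : ℝ} (hom : ∀ u v : M, ∃ e : M ≃ᵢ M, dist (e u) v ≤ D) (u0 : M)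
    {A : G → Bool} (hA : A ∈ closure (range fun g => act g (im f))) (hA1 : A 1 = true) :
    ∃ h ∈ Limits f, (∀ u, A (h u) = true) ∧ ∀ a, A a = true → ∃ u, d a (h u) ≤ ⌈K + C⌉₊ := by
  classical
  have hne : (comap (fun g => act g (im f)) (𝓝 A)).NeBot := by
    rw [comap_neBot_iff]
    intro t ht
    obtain ⟨_, h1, ⟨g, rfl⟩⟩ := mem_closure_iff_nhds.1 hA t ht
    exact ⟨g, h1⟩
  set U : Ultrafilter G := Ultrafilter.of (comap (fun g => act g (im f)) (𝓝 A)) with hU
  have hT : Tendsto (fun g => act g (im f)) U (𝓝 A) :=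
    tendsto_iff_comap.2 (Ultrafilter.of_le _)
  have hx : ∀ x, ∀ᶠ g in (U : Filter G), act g (im f) x = A x := by
    intro x
    have h1 : Tendsto (fun g => act g (im f) x) U (𝓝 (A x)) :=
      ((continuous_apply x).tendsto A).comp hT
    rw [nhds_discrete, tendsto_pure] at h1
    exact h1
  have hmem : ∀ x, A x = true → ∀ g, ∃ w : M, act g (im f) x = A x → g * f w = x := by
    intro x hAx g
    by_cases h : act g (im f) x = A x
    · rw [hAx, act_im, im_true] at h
      obtain ⟨w, hw⟩ := h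
      exact ⟨w, fun _ => hw⟩
    · exact ⟨u0, fun h' => absurd h' h⟩
  choose w hw1 using hmem 1 hA1
  choose e he using fun g => hom u0 (w g)
  have hbd : ∀ z : M, ∃ y, ∀ᶠ g in (U : Filter G), g * f (e g z) = y := by
    intro z
    have h1 : ∀ᶠ g in (U : Filter G), ∃ y ∈ {y | d 1 y ≤ ⌈K * (dist z u0 + D) + C⌉₊},
        g * f (e g z) = y := by
      filter_upwards [hx 1] with g hg
      refine ⟨_, ?_, rfl⟩
      have h2 := hw1 g hg
      have h3 : d 1 (g * f (e g z)) = d (f (w g)) (f (e g z)) := by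
        rw [← hw.inv g (f (w g)), h2]
      have h4 := hf.upper (w g) (e g z)
      have h5 : dist (w g) (e g z) ≤ dist z u0 + D := by
        have h6 := dist_triangle (w g) (e g u0) (e g z)
        rw [(e g).dist_eq] at h6
        have h7 := he g
        rw [dist_comm (w g) (e g u0), dist_comm u0 z] at h6
        linarith
      have h8 : K * dist (w g) (e g z) ≤ K * (dist z u0 + D) :=
        mul_le_mul_of_nonneg_left h5 (by linarith)
      change d 1 (g * f (e g z)) ≤ _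
      rw [h3]
      have h9 : (d (f (w g)) (f (e g z)) : ℝ) ≤ K * (dist z u0 + D) + C := by linarith
      exact_mod_cast h9.trans (Nat.le_ceil _)
    obtain ⟨y, -, hy⟩ := (Ultrafilter.eventually_exists_mem_iff (hw.fin _)).1 h1
    exact ⟨y, hy⟩
  choose h hh using hbd
  refine ⟨h, ?_, ?_, ?_⟩
  · intro P
    have h1 : ∀ᶠ g in (U : Filter G), ∀ z ∈ P, g * f (e g z) = h z :=
      (Finset.eventually_all P).2 fun z _ => hh z
    obtain ⟨g, hg⟩ := h1.exists
    exact ⟨g, e g, fun z hz => (hg z hz).symm⟩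
  · intro z
    obtain ⟨g, hg1, hg2⟩ := ((hh z).and (hx (h z))).exists
    rw [← hg2, act_im, im_true]
    exact ⟨_, hg1⟩
  · intro a ha
    choose v hv using hmem a ha
    have h1 : ∀ᶠ g in (U : Filter G), (e g).symm (v g) ∈
        Metric.closedBall u0 (K * d a 1 + K * C + D) := by
      filter_upwards [hx 1, hx a] with g hg hga
      have h2 := hw1 g hg
      have h3 := hv g hga
      have h4 := hf.lower' hK (v g) (w g)
      have h5 : d (f (v g)) (f (w g)) = d a 1 := by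
        rw [← hw.inv g (f (v g)), h2, h3]
      rw [h5] at h4
      rw [Metric.mem_closedBall, ← (e g).dist_eq, IsometryEquiv.apply_symm_apply]
      have h6 := dist_triangle (v g) (w g) (e g u0)
      have h7 := he g
      rw [dist_comm (w g) (e g u0)] at h6
      linarith
    obtain ⟨y, -, hy⟩ := (isCompact_closedBall u0 (K * d a 1 + K * C + D)).ultrafilter_le_nhds
      (U.map fun g => (e g).symm (v g)) (le_principal_iff.2 h1)
    have h2 : ∀ᶠ g in (U : Filter G), dist ((e g).symm (v g)) y < 1 :=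
      (show Tendsto (fun g => (e g).symm (v g)) U (𝓝 y) from hy) (Metric.ball_mem_nhds y one_pos)
    obtain ⟨g, hg1, hg2, hg3⟩ := ((hx a).and ((hh y).and h2)).exists
    refine ⟨y, ?_⟩
    have h3 := hv g hg1
    have h4 : d a (h y) = d (f (v g)) (f (e g y)) := by
      rw [← hg2, ← hw.inv g (f (v g)), h3]
    rw [h4]
    have h5 := hf.upper (v g) (e g y)
    have h6 : dist (v g) (e g y) = dist ((e g).symm (v g)) y := by
      rw [← (e g).dist_eq ((e g).symm (v g)), IsometryEquiv.apply_symm_apply]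
    rw [h6] at h5
    have h7 : K * dist ((e g).symm (v g)) y ≤ K * 1 :=
      mul_le_mul_of_nonneg_left hg3.le (by linarith)
    have h8 : (d (f (v g)) (f (e g y)) : ℝ) ≤ K + C := by linarith
    exact_mod_cast h8.trans (Nat.le_ceil _)

end

end Pool.Agent.U541.QP
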