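import Pool.Agent.U541.QP.Morse
import Pool.Agent.W620.FL.Mycielski

/-!
Limits of translates of a subset of a group: a limit which is coarsely an approximate subgroup, or
a Cantor family of limits which are pairwise at infinite Hausdorff distance up to translation.
-/

set_option autoImplicit false

namespace Pool.Agent.U541.QP

open Set

section
variable {G : Type*} [Group G]

/-- left-invariant proper graph metrics on a group -/
structure WM (d : G → G → ℕ) : Prop where
  dm : DM d
  inv : ∀ g x y, d (g * x) (g * y) = d x y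
  fin : ∀ n, {x | d 1 x ≤ n}.Finite

/-- translates of a set, given by its characteristic function -/
def act (g : G) (A : G → Bool) : G → Bool := fun x => A (g⁻¹ * x)

/-- the set `A` is in the `n`-neighbourhood of `B` -/
def Near (d : G → G → ℕ) (n : ℕ) (A B : G → Bool) : Prop :=
  ∀ x, A x = true → ∃ y, B y = true ∧ d x y ≤ n

variable {d : G → G → ℕ}

theorem act_act (g h : G) (A : G → Bool) : act g (act h A) = act (g * h) A := by
  funext x
  simp [act, mul_assoc]

theorem act_one (A : G → Bool) : act 1 A = A := by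
  funext x
  simp [act]

theorem continuous_act (g : G) : Continuous (act g : (G → Bool) → (G → Bool)) :=
  continuous_pi fun x => continuous_apply (g⁻¹ * x)

theorem Near.trans (hw : WM d) {n m : ℕ} {A B C : G → Bool} (h1 : Near d n A B)
    (h2 : Near d m B C) : Near d (n + m) A C := by
  intro x hx
  obtain ⟨y, hy, hxy⟩ := h1 x hx
  obtain ⟨z, hz, hyz⟩ := h2 y hy
  exact ⟨z, hz, (hw.dm.tri x y z).trans (by omega)⟩

omit [Group G] in
theorem Near.mono {n m : ℕ} (hnm : n ≤ m) {A B : G → Bool} (h1 : Near d n A B) : Near d m A B := by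
  intro x hx
  obtain ⟨y, hy, hxy⟩ := h1 x hx
  exact ⟨y, hy, hxy.trans hnm⟩

theorem Near.act (hw : WM d) {n : ℕ} {A B : G → Bool} (h1 : Near d n A B) (g : G) :
    Near d n (act g A) (act g B) := by
  intro x hx
  obtain ⟨y, hy, hxy⟩ := h1 (g⁻¹ * x) hx
  refine ⟨g * y, by simpa [QP.act] using hy, ?_⟩
  rw [← hw.inv g⁻¹ x (g * y), inv_mul_cancel_left]
  exact hxy

theorem finite_ball (hw : WM d) (x : G) (n : ℕ) : {y | d x y ≤ n}.Finite := by
  refine ((hw.fin n).image (fun y => x * y)).subset ?_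
  intro y hy
  refine ⟨x⁻¹ * y, ?_, by simp⟩
  simp only [mem_setOf_eq] at hy ⊢
  rw [← hw.inv x 1 (x⁻¹ * y)]
  simpa using hy

theorem closed_near (hw : WM d) (n : ℕ) {Y : Type*} [TopologicalSpace Y]
    (u v : Y → (G → Bool)) (hu : Continuous u) (hv : Continuous v) :
    IsClosed {y | Near d n (u y) (v y)} := by
  have e : {y | Near d n (u y) (v y)} =
      ⋂ x : G, ({y | u y x = false} ∪ ⋃ z ∈ {z | d x z ≤ n}, {y | v y z = true}) := by
    ext y
    simp only [Near, mem_setOf_eq, mem_iInter, mem_union, mem_iUnion, exists_prop]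
    refine forall_congr' fun x => ?_
    constructor
    · intro h
      cases hx : u y x with
      | false => exact Or.inl rfl
      | true =>
        obtain ⟨z, hz, hz2⟩ := h hx
        exact Or.inr ⟨z, hz2, hz⟩
    · rintro (h | ⟨z, hz, hz2⟩) hx
      · rw [h] at hx
        exact absurd hx (by simp)
      · exact ⟨z, hz2, hz⟩
  rw [e]
  refine isClosed_iInter fun x => IsClosed.union ?_ ?_
  · exact isClosed_eq ((continuous_apply x).comp hu) continuous_const
  · refine (finite_ball hw x n).isClosed_biUnion fun z _ => ?_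
    exact isClosed_eq ((continuous_apply z).comp hv) continuous_const

/-- closed invariant sets containing a set which contains `1` -/
structure CI (M : Set (G → Bool)) : Prop where
  closed : IsClosed M
  inv : ∀ A ∈ M, ∀ g, act g A ∈ M
  ne : ∃ A ∈ M, A 1 = true

theorem isClosed_one : IsClosed {A : G → Bool | A 1 = true} :=
  isClosed_eq (continuous_apply (1 : G)) continuous_const

theorem isOpen_one : IsOpen {A : G → Bool | A 1 = true} := by
  have e : {A : G → Bool | A 1 = true} = (fun A : G → Bool => A 1) ⁻¹' {true} := by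
    ext A
    simp
  rw [e]
  exact (isOpen_discrete ({true} : Set Bool)).preimage (continuous_apply (1 : G))

theorem exists_min {P : Set (G → Bool)} (hP : CI P) :
    ∃ M ⊆ P, CI M ∧ ∀ A ∈ M, A 1 = true → ∀ U : Set (G → Bool), IsOpen U → (U ∩ M).Nonempty →
      ∃ g, act g A ∈ U := by
  obtain ⟨M, hM⟩ := zorn_superset {N : Set (G → Bool) | CI N ∧ N ⊆ P} (by
    intro c hc hchain
    rcases c.eq_empty_or_nonempty with rfl | hcne
    · exact ⟨P, ⟨hP, Subset.rfl⟩, by simp⟩
    · refine ⟨⋂₀ c, ⟨⟨isClosed_sInter fun N hN => (hc hN).1.closed, ?_, ?_⟩, ?_⟩,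
        fun N hN => sInter_subset_of_mem hN⟩
      · intro A hA g
        exact mem_sInter.2 fun N hN => (hc hN).1.inv A (mem_sInter.1 hA N hN) g
      · have : Nonempty c := hcne.to_subtype
        have h1 : (⋂ N : c, ((N : Set (G → Bool)) ∩ {A | A 1 = true})).Nonempty := by
          refine IsCompact.nonempty_iInter_of_directed_nonempty_isCompact_isClosed _ ?_ ?_ ?_ ?_
          · intro N N'
            rcases hchain.total N.2 N'.2 with h | h
            · exact ⟨N, Subset.rfl, fun A hA => ⟨h hA.1, hA.2⟩⟩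
            · exact ⟨N', fun A hA => ⟨h hA.1, hA.2⟩, Subset.rfl⟩
          · intro N
            obtain ⟨A, hA, hA1⟩ := (hc N.2).1.ne
            exact ⟨A, hA, hA1⟩
          · intro N
            exact ((hc N.2).1.closed.inter isClosed_one).isCompact
          · intro N
            exact (hc N.2).1.closed.inter isClosed_one
        obtain ⟨A, hA⟩ := h1
        rw [mem_iInter] at hA
        refine ⟨A, mem_sInter.2 fun N hN => (hA ⟨N, hN⟩).1, ?_⟩
        obtain ⟨N, hN⟩ := hcne
        exact (hA ⟨N, hN⟩).2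
      · obtain ⟨N, hN⟩ := hcne
        exact (sInter_subset_of_mem hN).trans (hc hN).2)
  refine ⟨M, hM.prop.2, hM.prop.1, fun A hA hA1 U hU ⟨B, hBU, hBM⟩ => ?_⟩
  have hN : CI (closure (range fun g => act g A)) := by
    refine ⟨isClosed_closure, ?_, A, subset_closure ⟨1, act_one A⟩, hA1⟩
    intro C hC g
    refine map_mem_closure (continuous_act g) hC ?_
    rintro _ ⟨h, rfl⟩
    exact ⟨g * h, (act_act g h A).symm⟩
  have hNM : closure (range fun g => act g A) ⊆ M := by
    refine closure_minimal ?_ hM.prop.1.closed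
    rintro _ ⟨g, rfl⟩
    exact hM.prop.1.inv A hA g
  have h1 : M ⊆ closure (range fun g => act g A) := hM.le_of_le ⟨hN, hNM.trans hM.prop.2⟩ hNM
  obtain ⟨_, hCU, ⟨g, rfl⟩⟩ := mem_closure_iff.1 (h1 hBM) U hU hBU
  exact ⟨g, hCU⟩

/-- the dichotomy for arbitrary subsets of a group -/
theorem dichotomy (hw : WM d) {P : Set (G → Bool)} (hP : CI P) :
    (∃ A ∈ P, A 1 = true ∧ ∃ n m : ℕ, ∀ a, A a = true → ∃ h, (Near d n (act h A) A ∧
      Near d n A (act h A)) ∧ d a h ≤ m) ∨
    ∃ Φ : (ℕ → Bool) → (G → Bool), (∀ x, Φ x ∈ P ∧ Φ x 1 = true) ∧ ∀ x y, x ≠ y → ∀ (g : G) (n : ℕ),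
      ¬ (Near d n (Φ x) (act g (Φ y)) ∧ Near d n (act g (Φ y)) (Φ x)) := by
  classical
  obtain ⟨M, hMP, hM, hmin⟩ := exists_min hP
  set W' : Set (G → Bool) := M ∩ {A | A 1 = true} with hW'
  have hWc : IsCompact W' := (hM.closed.inter isClosed_one).isCompact
  have : CompactSpace W' := isCompact_iff_compactSpace.1 hWc
  set E : ℕ → Set (W' × W') := fun n => {q | ∃ g, d 1 g ≤ n ∧
    (Near d n (q.1 : G → Bool) (act g (q.2 : G → Bool)) ∧
      Near d n (act g (q.2 : G → Bool)) (q.1 : G → Bool))} with hE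
  have hEc : ∀ n, IsClosed (E n) := by
    intro n
    have e : E n = ⋃ g ∈ {g : G | d 1 g ≤ n}, ({q : W' × W' |
        Near d n (q.1 : G → Bool) (act g (q.2 : G → Bool))} ∩
        {q : W' × W' | Near d n (act g (q.2 : G → Bool)) (q.1 : G → Bool)}) := by
      ext q
      simp only [hE, mem_setOf_eq, mem_iUnion, mem_inter_iff, exists_prop]
    rw [e]
    have c1 : Continuous fun q : W' × W' => (q.1 : G → Bool) :=
      continuous_subtype_val.comp continuous_fst
    have c2 : Continuous fun q : W' × W' => (q.2 : G → Bool) :=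
      continuous_subtype_val.comp continuous_snd
    refine (hw.fin n).isClosed_biUnion fun g _ => IsClosed.inter ?_ ?_
    · exact closed_near hw n _ _ c1 ((continuous_act g).comp c2)
    · exact closed_near hw n _ _ ((continuous_act g).comp c2) c1
  have hEm : ∀ n m, n ≤ m → E n ⊆ E m := by
    rintro n m hnm q ⟨g, hg, h1, h2⟩
    exact ⟨g, hg.trans hnm, h1.mono hnm, h2.mono hnm⟩
  obtain ⟨A0, hA0, hA01⟩ := hM.ne
  by_cases hcase : ∀ n, ∀ U V : Set W', IsOpen U → IsOpen V → U.Nonempty → V.Nonempty →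
      U ⊆ univ → V ⊆ univ → ∃ u ∈ U, ∃ v ∈ V, (u, v) ∉ E n
  · right
    obtain ⟨Φ, hΦ⟩ := Pool.Agent.W620.FL.mycielski E hEc isOpen_univ ⟨⟨A0, hA0, hA01⟩, mem_univ _⟩
      hcase
    refine ⟨fun x => Φ x, fun x => ⟨hMP (Φ x).2.1, (Φ x).2.2⟩, fun x y hxy g n hn => ?_⟩
    obtain ⟨N, hN⟩ := hΦ x y hxy
    refine hN (max N (max n (d 1 g))) (le_max_left _ _) ?_
    exact ⟨g, (le_max_right _ _).trans (le_max_right _ _),
      hn.1.mono ((le_max_left _ _).trans (le_max_right _ _)),
      hn.2.mono ((le_max_left _ _).trans (le_max_right _ _))⟩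
  · left
    push Not at hcase
    obtain ⟨n, U, V, hU, hV, ⟨u0, hu0⟩, ⟨v0, hv0⟩, -, -, hUV⟩ := hcase
    obtain ⟨V', hV'o, rfl⟩ := isOpen_induced_iff.1 hV
    set A : G → Bool := v0.1 with hA
    have hVo : IsOpen (V' ∩ {A : G → Bool | A 1 = true}) := hV'o.inter isOpen_one
    have hcov : ∀ B ∈ W', ∃ g, act g B ∈ V' ∩ {A : G → Bool | A 1 = true} := fun B hB =>
      hmin B hB.1 hB.2 _ hVo ⟨A, ⟨hv0, v0.2.2⟩, v0.2.1⟩
    obtain ⟨t, ht⟩ := hWc.elim_finite_subcover
      (fun g : G => {B : G → Bool | act g B ∈ V' ∩ {A : G → Bool | A 1 = true}})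
      (fun g => hVo.preimage (continuous_act g)) (by
        intro B hB
        obtain ⟨g, hg⟩ := hcov B hB
        exact mem_iUnion.2 ⟨g, hg⟩)
    have hfin : Finite {g : G | d 1 g ≤ n} := (hw.fin n).to_subtype
    have hlab : ∀ a : {a : G // A a = true}, ∃ l : t × {g : G | d 1 g ≤ n},
        Near d n (u0 : G → Bool) (act (l.2 * (l.1 * (a : G)⁻¹)) A) ∧
        Near d n (act (l.2 * (l.1 * (a : G)⁻¹)) A) (u0 : G → Bool) := by
      intro a
      have h1 : act (a : G)⁻¹ A ∈ W' := by
        refine ⟨hM.inv _ v0.2.1 _, ?_⟩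
        simp only [mem_setOf_eq, act, inv_inv, mul_one]
        exact a.2
      obtain ⟨g, hg, h2⟩ := mem_iUnion₂.1 (ht h1)
      simp only [mem_setOf_eq, act_act] at h2
      obtain ⟨k, hk, h3, h4⟩ := hUV u0 hu0 ⟨act (g * (a : G)⁻¹) A, hM.inv _ v0.2.1 _, h2.2⟩ h2.1
      rw [act_act] at h3 h4
      exact ⟨(⟨g, hg⟩, ⟨k, hk⟩), h3, h4⟩
    choose lab hlab using hlab
    obtain ⟨rep, hrep⟩ : ∃ rep : t × {g : G | d 1 g ≤ n} → G, ∀ a : {a : G // A a = true},
        ∃ a' : {a : G // A a = true}, lab a' = lab a ∧ rep (lab a) = a' := by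
      refine ⟨fun l => if h : ∃ a, lab a = l then ((Classical.choose h : {a : G // A a = true}) : G)
        else 1, fun a => ?_⟩
      have h : ∃ a', lab a' = lab a := ⟨a, rfl⟩
      refine ⟨Classical.choose h, Classical.choose_spec h, ?_⟩
      simp only [h, dif_pos]
    obtain ⟨m, hm⟩ := (Set.finite_range fun l => d (rep l) 1).bddAbove
    refine ⟨A, hMP v0.2.1, v0.2.2, n + n, m, fun a ha => ?_⟩
    obtain ⟨a', hl, hr⟩ := hrep ⟨a, ha⟩
    obtain ⟨h1, h2⟩ := hlab ⟨a, ha⟩
    obtain ⟨h3, h4⟩ := hlab a'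
    rw [hl] at h3 h4
    set l := lab ⟨a, ha⟩
    have e1 : (a * (a' : G)⁻¹) = ((l.2 : G) * (l.1 * a⁻¹))⁻¹ * (l.2 * (l.1 * (a' : G)⁻¹)) := by
      group
    refine ⟨a * (a' : G)⁻¹, ⟨?_, ?_⟩, ?_⟩
    · have h5 := (h4.trans hw h1).act hw ((l.2 : G) * (l.1 * a⁻¹))⁻¹
      rw [act_act, act_act, inv_mul_cancel, act_one, ← e1] at h5
      exact h5
    · have h5 := (h2.trans hw h3).act hw ((l.2 : G) * (l.1 * a⁻¹))⁻¹
      rw [act_act, act_act, inv_mul_cancel, act_one, ← e1] at h5
      exact h5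
    · have h6 : d a (a * (a' : G)⁻¹) = d (a' : G) 1 := by
        rw [← hw.inv (a * (a' : G)⁻¹) a' 1]
        simp
      rw [h6, ← hr]
      exact hm ⟨l, rfl⟩

/-- if the coarse classes are uniform then the limit is at finite distance from a subgroup -/
theorem subgroup (hw : WM d) {A : G → Bool} (hA1 : A 1 = true) {n m : ℕ}
    (h : ∀ a, A a = true → ∃ h, (Near d n (act h A) A ∧ Near d n A (act h A)) ∧ d a h ≤ m)
    {R : ℕ} (hR : ∀ (g : G) (k : ℕ), Near d k (act g A) A → Near d R (act g A) A) :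
    ∃ (H : Subgroup G) (ρ : ℕ), (∀ a, A a = true → ∃ h ∈ H, d a h ≤ ρ) ∧
      ∀ h ∈ H, ∃ a, A a = true ∧ d h a ≤ ρ := by
  let H : Subgroup G :=
    { carrier := {g | ∃ k, Near d k (act g A) A ∧ Near d k A (act g A)}
      mul_mem' := by
        rintro g g' ⟨k, h1, h2⟩ ⟨k', h3, h4⟩
        refine ⟨k + k', ?_, ?_⟩
        · rw [← act_act]
          exact ((h3.act hw g).trans hw h1).mono (by omega)
        · rw [← act_act]
          exact (h2.trans hw (h4.act hw g)).mono (by omega)
      one_mem' := by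
        refine ⟨0, ?_, ?_⟩ <;>
        · rw [act_one]
          intro x hx
          exact ⟨x, hx, by rw [hw.dm.self]⟩
      inv_mem' := by
        rintro g ⟨k, h1, h2⟩
        refine ⟨k, ?_, ?_⟩
        · have := h2.act hw g⁻¹
          rwa [act_act, inv_mul_cancel, act_one] at this
        · have := h1.act hw g⁻¹
          rwa [act_act, inv_mul_cancel, act_one] at this }
  refine ⟨H, max m R, fun a ha => ?_, fun g ⟨k, h1, _⟩ => ?_⟩
  · obtain ⟨g, hg, hd⟩ := h a ha
    exact ⟨g, ⟨n, hg⟩, hd.trans (le_max_left _ _)⟩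
  · obtain ⟨y, hy, hd⟩ := hR g k h1 g (by simp [act, hA1])
    exact ⟨y, hy, hd.trans (le_max_right _ _)⟩

end

end Pool.Agent.U541.QP
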